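import Pool.Agent.Lib.MP_e97be0_al.CSA

/-!
Existence of amalgamated products with the normal form property.
-/

namespace Pool.Agent.Lib.MP_e97be0_al

open Monoid Function

section family

variable {G : Bool → Type} [∀ i, Group (G i)] {C : Type} [Group C] (φ : ∀ i, C →* G i)

/-- The internal amalgam structure on the pushout. -/
def pushAm : Am (PushoutI φ) where
  S i := (PushoutI.of (φ := φ) i).range
  C := (PushoutI.base φ).range
  le i := by
    rintro _ ⟨c, rfl⟩
    exact ⟨φ i c, PushoutI.of_apply_eq_base φ i c⟩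

theorem pushAm_list {n : ℕ} {i j : Bool} {g : PushoutI φ} (h : W (pushAm φ) n i j g) :
    ∃ (l : List (Σ i, G i)) (c : C), (∀ x ∈ l, x.2 ∉ (φ x.1).range) ∧
      l.IsChain (fun a b => a.1 ≠ b.1) ∧ l.length = n ∧ (∀ x ∈ l.head?, x.1 = i) ∧
      g = (l.map (fun x => PushoutI.of (φ := φ) x.1 x.2)).prod * PushoutI.base φ c := by
  induction n generalizing i g with
  | zero =>
    obtain ⟨-, c, rfl⟩ := h
    exact ⟨[], c, by simp, by simp, rfl, by simp, by simp⟩
  | succ n ih =>
    obtain ⟨x, g', ⟨y, rfl⟩, hxC, hg', rfl⟩ := h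
    obtain ⟨l, c, h1, h2, h3, h4, h5⟩ := ih hg'
    refine ⟨⟨i, y⟩ :: l, c, ?_, ?_, by simp [h3], by simp, by simp [h5, mul_assoc]⟩
    · intro x hx
      rcases List.mem_cons.1 hx with rfl | hx
      · rintro ⟨z, hz⟩
        apply hxC
        refine ⟨z, ?_⟩
        rw [← PushoutI.of_apply_eq_base φ i z]
        exact congrArg _ hz
      · exact h1 x hx
    · rw [List.isChain_cons]
      refine ⟨?_, h2⟩
      intro x hx
      rw [h4 x hx]
      cases i <;> simp

theorem pushAm_NF (hφ : ∀ i, Injective (φ i)) : NF (pushAm φ) := by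
  intro n i j g h hg
  obtain ⟨l, c, h1, h2, h3, -, h5⟩ := pushAm_list φ h
  let w : CoprodI.Word G := ⟨l, fun x hx e => h1 x hx (by rw [e]; exact one_mem _), h2⟩
  have hw : PushoutI.Reduced φ w := h1
  have := hw.eq_empty_of_mem_range hφ (by
    have e : PushoutI.ofCoprodI (φ := φ) w.prod =
        (l.map (fun x => PushoutI.of (φ := φ) x.1 x.2)).prod := by
      simp only [w, CoprodI.Word.prod, map_list_prod, List.map_map]
      congr 1
    rw [e]
    have h6 : PushoutI.base φ c ∈ (PushoutI.base φ).range := ⟨c, rfl⟩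
    rw [h5] at hg
    exact ((PushoutI.base φ).range.mul_mem_cancel_right h6).1 hg)
  have h7 : l = [] := congrArg CoprodI.Word.toList this
  rw [h7] at h3
  simp at h3

theorem pushAm_Gam : (pushAm φ).Gam = ⊤ := by
  rw [eq_top_iff]
  rintro x -
  induction x using PushoutI.induction_on with
  | of i g => exact S_le_Gam i ⟨g, rfl⟩
  | base h => exact S_le_Gam false ((pushAm φ).le false ⟨h, rfl⟩)
  | mul x y hx hy => exact Subgroup.mul_mem _ hx hy

end family

/-- The two-element family of types. -/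
def Fam (A B : Type) : Bool → Type
  | false => A
  | true => B

instance famGroup (A B : Type) [Group A] [Group B] : ∀ i, Group (Fam A B i)
  | false => inferInstanceAs (Group A)
  | true => inferInstanceAs (Group B)

/-- The two-element family of maps. -/
def famHom {A B C : Type} [Group A] [Group B] [Group C] (fA : C →* A) (fB : C →* B) :
    ∀ i, C →* Fam A B i
  | false => fA
  | true => fB

theorem exists_amalgam {A B C : Type} [Group A] [Group B] [Group C] (fA : C →* A) (fB : C →* B)
    (hA : Injective fA) (hB : Injective fB) :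
    ∃ (P : Type) (_ : Group P) (iA : A →* P) (iB : B →* P) (M : Am P),
      Injective iA ∧ Injective iB ∧ (∀ c, iA (fA c) = iB (fB c)) ∧ M.S false = iA.range ∧
      M.S true = iB.range ∧ M.C = (iA.comp fA).range ∧ NF M ∧ M.Gam = ⊤ := by
  have hφ : ∀ i, Injective (famHom fA fB i) := by
    intro i
    cases i
    · exact hA
    · exact hB
  refine ⟨PushoutI (famHom fA fB), inferInstance, PushoutI.of (φ := famHom fA fB) false,
    PushoutI.of (φ := famHom fA fB) true, pushAm _, PushoutI.of_injective hφ false,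
    PushoutI.of_injective hφ true, ?_, rfl, rfl, ?_, pushAm_NF _ hφ, pushAm_Gam _⟩
  · intro c
    exact (PushoutI.of_apply_eq_base (famHom fA fB) false c).trans
      (PushoutI.of_apply_eq_base (famHom fA fB) true c).symm
  · exact congrArg MonoidHom.range (PushoutI.of_comp_eq_base (φ := famHom fA fB) false).symm

/-- Amalgams in the class `K`. -/
theorem exists_amalgam_K {A B C : Type} [Group A] [Group B] [Group C] (fA : C →* A) (fB : C →* B)
    (hA : Injective fA) (hB : Injective fB) (kA : K A) (kB : K B)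
    (hm : ∀ c : C, c ≠ 1 → ∀ x : A, x⁻¹ * fA c * x ∈ fA.range → x ∈ fA.range) :
    ∃ (P : Type) (_ : Group P) (iA : A →* P) (iB : B →* P) (M : Am P),
      Injective iA ∧ Injective iB ∧ (∀ c, iA (fA c) = iB (fB c)) ∧ M.S false = iA.range ∧
      M.S true = iB.range ∧ M.C = (iA.comp fA).range ∧ NF M ∧ M.Gam = ⊤ ∧ M.Maln ∧ K P := by
  obtain ⟨P, _, iA, iB, M, h1, h2, h3, h4, h5, h6, h7, h8⟩ := exists_amalgam fA fB hA hB
  have hM : M.Maln := by
    intro c hc hc1 x hx hx'
    rw [h6] at hc hx' ⊢
    rw [h4] at hx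
    obtain ⟨c, rfl⟩ := hc
    obtain ⟨x, rfl⟩ := hx
    obtain ⟨d, hd⟩ := hx'
    have : x ∈ fA.range := hm c (fun e => hc1 (by simp [e])) x ⟨d, h1 (by simpa using hd)⟩
    obtain ⟨z, rfl⟩ := this
    exact ⟨z, rfl⟩
  refine ⟨P, inferInstance, iA, iB, M, h1, h2, h3, h4, h5, h6, h7, h8, hM, K_of_am h7 h8 hM ?_⟩
  intro k
  cases k
  · rw [h4]; exact kA.range iA h1
  · rw [h5]; exact kB.range iB h2

theorem K_int : K (Multiplicative ℤ) := by
  refine K.of_comm (fun x y => Commute.all x y) ?_
  intro g hg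
  have : g.toAdd + g.toAdd = 0 := by simpa using congrArg Multiplicative.toAdd hg
  have h : g.toAdd = 0 := by omega
  simpa using h

/-- The free product of an infinite cyclic group with a group in the class `K`. -/
theorem exists_free_K {B : Type} [Group B] (kB : K B) :
    ∃ (P : Type) (_ : Group P) (iA : Multiplicative ℤ →* P) (iB : B →* P) (M : Am P),
      Injective iA ∧ Injective iB ∧ M.S false = iA.range ∧
      M.S true = iB.range ∧ M.C = ⊥ ∧ NF M ∧ M.Gam = ⊤ ∧ M.Maln ∧ K P := by
  obtain ⟨P, _, iA, iB, M, h1, h2, -, h4, h5, h6, h7, h8, h9, h10⟩ :=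
    exists_amalgam_K (C := Unit) (1 : Unit →* Multiplicative ℤ) (1 : Unit →* B)
      (injective_of_subsingleton _) (injective_of_subsingleton _) K_int kB
      (fun c hc => absurd (Subsingleton.elim _ _) hc)
  refine ⟨P, inferInstance, iA, iB, M, h1, h2, h4, h5, ?_, h7, h8, h9, h10⟩
  rw [h6, eq_bot_iff]
  rintro _ ⟨c, rfl⟩
  simp

end Pool.Agent.Lib.MP_e97be0_al
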