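import Pool.Agent.Lib.MP_e97be0_al.Words

/-!
Involution-free CSA groups, and their stability under amalgams along a subgroup that is malnormal
in one factor.
-/

namespace Pool.Agent.Lib.MP_e97be0_al

/-- Involution-free CSA groups. -/
structure K (G : Type*) [Group G] : Prop where
  ct : ∀ a x y : G, a ≠ 1 → Commute a x → Commute a y → Commute x y
  mn : ∀ a g : G, a ≠ 1 → Commute a (g * a * g⁻¹) → Commute a g
  ni : ∀ g : G, g * g = 1 → g = 1

theorem commute_of_inj {G H : Type*} [Group G] [Group H] (f : H →* G)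
    (hf : Function.Injective f) {x y : H} (h : Commute (f x) (f y)) : Commute x y := by
  apply hf
  simpa [map_mul] using h.eq

theorem K.of_injective {G H : Type*} [Group G] [Group H] (f : H →* G)
    (hf : Function.Injective f) (h : K G) : K H where
  ct a x y ha hx hy := commute_of_inj f hf
    (h.ct (f a) _ _ (fun e => ha (hf (by simpa using e))) (hx.map f) (hy.map f))
  mn a g ha hg := commute_of_inj f hf
    (h.mn (f a) _ (fun e => ha (hf (by simpa using e))) (by simpa using hg.map f))
  ni g hg := hf (by simpa using h.ni (f g) (by simpa using congrArg f hg))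

theorem K.range {G H : Type*} [Group G] [Group H] (f : G →* H)
    (hf : Function.Injective f) (h : K G) : K f.range :=
  K.of_injective (MonoidHom.ofInjective hf).symm.toMonoidHom
    (MonoidHom.ofInjective hf).symm.injective h

theorem K.of_comm {G : Type*} [Group G] (hc : ∀ x y : G, Commute x y)
    (ni : ∀ g : G, g * g = 1 → g = 1) : K G :=
  ⟨fun _ x y _ _ _ => hc x y, fun a g _ _ => hc a g, ni⟩

section general

variable {G : Type*} [Group G]

/-- Centralizers of nontrivial elements are malnormal. -/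
theorem K.maln (hG : K G) {h c x : G} (hh : h ≠ 1) (hc : Commute h c) (hc1 : c ≠ 1)
    (hx : Commute h (x⁻¹ * c * x)) : Commute h x := by
  have h1 : Commute c (x⁻¹ * c * x) := hG.ct h _ _ hh hc hx
  have h2 : Commute c x⁻¹ := hG.mn c x⁻¹ hc1 (by simpa using h1)
  exact hG.ct c _ _ hc1 hc.symm (by simpa using h2)

theorem K.aea (hG : K G) {h a e : G} (he : Commute h e)
    (hx : Commute h (a * e * a)) : Commute h a := by
  have h1 : Commute h (a * e * (a * e)) := by
    rw [← mul_assoc]; exact hx.mul_right he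
  by_cases h2 : a * e * (a * e) = 1
  · have := hG.ni _ h2
    have : a = e⁻¹ := eq_inv_of_mul_eq_one_left this
    rw [this]; exact he.inv_right
  · have h3 : Commute h (a * e) :=
      hG.ct _ _ _ h2 h1.symm ((Commute.refl (a * e)).mul_left (Commute.refl _))
    have : a = a * e * e⁻¹ := by group
    rw [this]; exact h3.mul_right he.inv_right

theorem commute_conj_iff (v : G) {a x : G} :
    Commute (v⁻¹ * a * v) (v⁻¹ * x * v) ↔ Commute a x := by
  constructor
  · intro h
    have := h.map (MulAut.conj v).toMonoidHom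
    simpa [mul_assoc] using this
  · intro h
    have := h.map (MulAut.conj v⁻¹).toMonoidHom
    simpa [mul_assoc] using this

end general

variable {P : Type*} [Group P] {M : Am P}

/-- `C` is malnormal in the factor `S false`. -/
def Am.Maln (M : Am P) : Prop :=
  ∀ c ∈ M.C, c ≠ 1 → ∀ x ∈ M.S false, x⁻¹ * c * x ∈ M.C → x ∈ M.C

theorem maln_true_aux (hN : NF M) (hm : M.Maln) {n : ℕ} {i j : Bool} {g b : P}
    (hg : W M n i j g) (hb : b ∈ M.S true) (hb1 : b ≠ 1) (h : g⁻¹ * b * g ∈ M.S true) :
    g ∈ M.S true := by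
  induction n generalizing i g b with
  | zero => exact M.le _ hg.2
  | succ n ih =>
    cases i with
    | true =>
      obtain ⟨x, g', hx, hxC, hg', rfl⟩ := hg
      refine (M.S true).mul_mem hx (ih (b := x⁻¹ * b * x) hg' ?_ ?_ ?_)
      · exact (M.S true).mul_mem ((M.S true).mul_mem ((M.S true).inv_mem hx) hb) hx
      · intro e
        apply hb1
        have : b = x * (x⁻¹ * b * x) * x⁻¹ := by group
        rw [this, e]; group
      · convert h using 1
        group
    | false =>
      exfalso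
      by_cases hbC : b ∈ M.C
      · obtain ⟨x, g', hx, hxC, hg', rfl⟩ := hg
        have hz : x⁻¹ * b * x ∉ M.C := fun hz => hxC (hm b hbC hb1 x hx hz)
        have hzS : x⁻¹ * b * x ∈ M.S false :=
          (M.S _).mul_mem ((M.S _).mul_mem ((M.S _).inv_mem hx) (M.le _ hbC)) hx
        have h1 := hg'.inv.mul (W.cons hzS hz hg')
        have e : g'⁻¹ * (x⁻¹ * b * x * g') = (x * g')⁻¹ * b * (x * g') := by group
        rw [e] at h1
        have h2 := W.len_le_one hN h1 h
        have : n = 0 := by omega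
        subst this
        obtain ⟨rfl, -⟩ := hg'
        exact W.not_mem_S hN h1 h
      · have h1 := hg.inv.mul (W.cons hb hbC hg)
        rw [← mul_assoc] at h1
        have h2 := W.len_le_one hN h1 h
        omega

/-- The factor `S true` is malnormal in the amalgam. -/
theorem maln_true (hN : NF M) (hG : M.Gam = ⊤) (hm : M.Maln) {g b : P}
    (hb : b ∈ M.S true) (hb1 : b ≠ 1) (h : g⁻¹ * b * g ∈ M.S true) : g ∈ M.S true := by
  obtain ⟨n, i, j, hg⟩ := W.total (M := M) (g := g) (by rw [hG]; trivial)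
  exact maln_true_aux hN hm hg hb hb1 h

theorem free_false_aux (hN : NF M) {n : ℕ} {i j : Bool} {g a : P}
    (hg : W M n i j g) (ha : a ∈ M.S false) (ha1 : ∀ x ∈ M.S false, x⁻¹ * a * x ∉ M.C)
    (h : g⁻¹ * a * g ∈ M.S false) : g ∈ M.S false := by
  induction n generalizing i g a with
  | zero => exact M.le _ hg.2
  | succ n ih =>
    cases i with
    | false =>
      obtain ⟨x, g', hx, hxC, hg', rfl⟩ := hg
      refine (M.S _).mul_mem hx (ih (a := x⁻¹ * a * x) hg' ?_ ?_ ?_)
      · exact (M.S _).mul_mem ((M.S _).mul_mem ((M.S _).inv_mem hx) ha) hx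
      · intro y hy
        have := ha1 (x * y) ((M.S _).mul_mem hx hy)
        convert this using 2
        group
      · convert h using 1
        group
    | true =>
      exfalso
      have haC : a ∉ M.C := by simpa using ha1 1 (M.S _).one_mem
      have h1 := hg.inv.mul (W.cons ha haC hg)
      rw [← mul_assoc] at h1
      have h2 := W.len_le_one hN h1 h
      omega

theorem free_false (hN : NF M) (hG : M.Gam = ⊤) {g a : P}
    (ha : a ∈ M.S false) (ha1 : ∀ x ∈ M.S false, x⁻¹ * a * x ∉ M.C)
    (h : g⁻¹ * a * g ∈ M.S false) : g ∈ M.S false := by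
  obtain ⟨n, i, j, hg⟩ := W.total (M := M) (g := g) (by rw [hG]; trivial)
  exact free_false_aux hN hg ha ha1 h

theorem W.zpow_eq_one (hN : NF M) {n : ℕ} {i : Bool} {u : P} (hu : W M (n + 1) i i u) {k : ℤ}
    (hk : u ^ k = 1) : k = 0 := by
  have key : ∀ N : ℕ, u ^ (N + 1) ≠ 1 := by
    intro N
    have := hu.pow (N + 1)
    rw [show (N + 1) * (n + 1) = (N * (n + 1) + n) + 1 by ring] at this
    exact W.ne_one hN this
  rcases k with (_ | N) | N
  · rfl
  · exact absurd (by rw [← zpow_natCast]; exact hk) (key N)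
  · exact absurd (by simpa using hk) (key N)

/-- The centralizer of a cyclically reduced word is infinite cyclic. -/
theorem cent_cyclic (hN : NF M) (hG : M.Gam = ⊤) (hm : M.Maln) {n : ℕ} {i : Bool} {u : P}
    (hu : W M (n + 1) i i u) :
    ∃ r : P, Commute u r ∧ (∀ z, Commute u z → ∃ k : ℤ, z = r ^ k) ∧
      ∀ k : ℤ, r ^ k = 1 → k = 0 := by
  classical
  have hex : ∃ m, ∃ r, Commute u r ∧ W M (m + 1) i i r := ⟨n, u, Commute.refl u, hu⟩
  obtain ⟨r, hur, hr⟩ := Nat.find_spec hex
  have hmin : ∀ m z, Commute u z → W M (m + 1) i i z → Nat.find hex ≤ m :=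
    fun m z h1 h2 => Nat.find_min' hex ⟨z, h1, h2⟩
  generalize Nat.find hex = m0 at hr hmin
  -- every forward element of the centralizer is an initial piece of a power of `u`
  have pre : ∀ m z N, Commute u z → W M m i i z → m ≤ N →
      ∃ d, W M d i i (z⁻¹ * u ^ N) := by
    intro m z N hz hw hmN
    have h1 := hu.pow N
    obtain ⟨d, hd⟩ : ∃ d, N * (n + 1) = m + d := ⟨N * (n + 1) - m, by
      have : N ≤ N * (n + 1) := Nat.le_mul_of_pos_right _ (by omega)
      omega⟩
    refine ⟨d, W.levi hN hw h1 (hd ▸ h1) hw ?_⟩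
    exact (hz.symm.pow_right N).eq
  have fw : ∀ m z, Commute u z → W M m i i z → ∃ k : ℤ, z = r ^ k := by
    intro m
    induction m using Nat.strong_induction_on with
    | _ m ih =>
      intro z hz hw
      rcases m with _ | m
      · refine ⟨0, ?_⟩
        rw [zpow_zero]
        by_contra hz1
        have h1 : u ∈ M.S true := maln_true hN hG hm (M.le _ hw.2) hz1 (by
          rw [mul_assoc, ← hz.eq, inv_mul_cancel_left]; exact M.le _ hw.2)
        exact W.cyc_not_mem_S hN hu h1
      · have hle := hmin m z hz hw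
        obtain ⟨d1, h1⟩ := pre _ z (m + 1) hz hw le_rfl
        obtain ⟨d2, h2⟩ := pre _ r (m + 1) hur hr (by omega)
        obtain ⟨d, hd⟩ : ∃ d, m + 1 = (m0 + 1) + d := ⟨m - m0, by omega⟩
        have h3 := W.levi hN hr h2 (hd ▸ hw) h1 (by group)
        obtain ⟨k, hk⟩ := ih d (by omega) _ (hur.inv_right.mul_right hz) h3
        refine ⟨1 + k, ?_⟩
        rw [zpow_add, zpow_one, ← hk]; group
  refine ⟨r, hur, ?_, fun k hk => W.zpow_eq_one hN hr hk⟩
  intro z hz
  rcases W.forward_or hN hu hu (w := z) (by rw [hG]; trivial) hz.eq with ⟨m, h⟩ | ⟨m, h⟩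
  · exact fw m z hz h
  · obtain ⟨k, hk⟩ := fw m z⁻¹ hz.inv_right h
    exact ⟨-k, by rw [zpow_neg, ← hk, inv_inv]⟩

theorem conj_ne_one {G : Type*} [Group G] (v : G) {a : G} (ha : a ≠ 1) : v⁻¹ * a * v ≠ 1 := by
  intro e
  apply ha
  have : a = v * (v⁻¹ * a * v) * v⁻¹ := by group
  rw [this, e]; group

/-- The three types of nontrivial elements. -/
theorem types (hN : NF M) (hG : M.Gam = ⊤) (hm : M.Maln) {a : P} (ha : a ≠ 1) :
    ∃ v : P, (∃ k, v⁻¹ * a * v ∈ M.S k ∧
        ∀ g, g⁻¹ * (v⁻¹ * a * v) * g ∈ M.S k → g ∈ M.S k) ∨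
      ∃ k m, W M (m + 1) k k (v⁻¹ * a * v) := by
  obtain ⟨n, i, j, hg⟩ := W.total (M := M) (g := a) (by rw [hG]; trivial)
  obtain ⟨v, -, ⟨k, hk⟩ | h⟩ := hg.trich
  · have hT : ∀ v : P, v⁻¹ * a * v ∈ M.S true → ∃ k, v⁻¹ * a * v ∈ M.S k ∧
        ∀ g, g⁻¹ * (v⁻¹ * a * v) * g ∈ M.S k → g ∈ M.S k := fun v hv =>
      ⟨true, hv, fun g hg => maln_true hN hG hm hv (conj_ne_one v ha) hg⟩
    cases k with
    | true => exact ⟨v, Or.inl (hT v hk)⟩
    | false =>
      by_cases hx : ∃ x ∈ M.S false, x⁻¹ * (v⁻¹ * a * v) * x ∈ M.C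
      · obtain ⟨x, -, hx⟩ := hx
        refine ⟨v * x, Or.inl (hT _ ?_)⟩
        convert M.le true hx using 1
        group
      · push Not at hx
        exact ⟨v, Or.inl ⟨false, hk, fun g hg => free_false hN hG hk hx hg⟩⟩
  · exact ⟨v, Or.inr h⟩

/-- Amalgams of involution-free CSA groups along a subgroup malnormal in one factor. -/
theorem K_of_am (hN : NF M) (hG : M.Gam = ⊤) (hm : M.Maln) (hK : ∀ k, K (M.S k)) : K P := by
  have ni : ∀ g : P, g * g = 1 → g = 1 := by
    intro g hg
    by_contra hg1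
    obtain ⟨v, ⟨k, hk, -⟩ | ⟨k, m, h⟩⟩ := types hN hG hm hg1
    · have := (hK k).ni ⟨_, hk⟩ (Subtype.ext (by
        have : v⁻¹ * g * v * (v⁻¹ * g * v) = v⁻¹ * (g * g) * v := by group
        simp only [Subgroup.coe_mul, this, hg, Subgroup.coe_one]; group))
      exact conj_ne_one v hg1 (congrArg Subtype.val this)
    · have := W.zpow_eq_one hN h (k := 2) (by
        have : (v⁻¹ * g * v) ^ (2 : ℤ) = v⁻¹ * (g * g) * v := by
          rw [zpow_two]; group
        rw [this, hg]; group)
      omega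
  have ct : ∀ a x y : P, a ≠ 1 → Commute a x → Commute a y → Commute x y := by
    intro a x y ha hx hy
    obtain ⟨v, hv⟩ := types hN hG hm ha
    rw [← commute_conj_iff v] at hx hy ⊢
    have ha' := conj_ne_one v ha
    generalize v⁻¹ * a * v = a at *
    generalize v⁻¹ * x * v = x at *
    generalize v⁻¹ * y * v = y at *
    rcases hv with ⟨k, hk, hk'⟩ | ⟨k, m, h⟩
    · have hxS : x ∈ M.S k := hk' x (by rwa [mul_assoc, hx.eq, inv_mul_cancel_left])
      have hyS : y ∈ M.S k := hk' y (by rwa [mul_assoc, hy.eq, inv_mul_cancel_left])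
      have := (hK k).ct ⟨a, hk⟩ ⟨x, hxS⟩ ⟨y, hyS⟩ (fun e => ha' (congrArg Subtype.val e))
        (Subtype.ext hx.eq) (Subtype.ext hy.eq)
      exact congrArg Subtype.val this.eq
    · obtain ⟨r, -, hr, -⟩ := cent_cyclic hN hG hm h
      obtain ⟨k1, rfl⟩ := hr x hx
      obtain ⟨k2, rfl⟩ := hr y hy
      exact (Commute.refl r).zpow_zpow k1 k2
  refine ⟨ct, ?_, ni⟩
  intro a g ha hg
  obtain ⟨v, hv⟩ := types hN hG hm ha
  rw [← commute_conj_iff v] at hg ⊢
  have e : v⁻¹ * (g * a * g⁻¹) * v = (v⁻¹ * g * v) * (v⁻¹ * a * v) * (v⁻¹ * g * v)⁻¹ := by group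
  rw [e] at hg
  have ha' := conj_ne_one v ha
  generalize v⁻¹ * a * v = a at *
  generalize v⁻¹ * g * v = g at *
  rcases hv with ⟨k, hk, hk'⟩ | ⟨k, m, h⟩
  · have h1 : g * a * g⁻¹ ∈ M.S k :=
      hk' _ (by rwa [mul_assoc _ a (g * a * g⁻¹), hg.eq, inv_mul_cancel_left])
    have h2 : g ∈ M.S k := by simpa using hk' g⁻¹ (by simpa using h1)
    have := (hK k).mn ⟨a, hk⟩ ⟨g, h2⟩ (fun e => ha' (congrArg Subtype.val e))
      (Subtype.ext hg.eq)
    exact congrArg Subtype.val this.eq
  · obtain ⟨r, har, hr, hr0⟩ := cent_cyclic hN hG hm h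
    have hv1 : g * a * g⁻¹ ≠ 1 := by simpa using conj_ne_one g⁻¹ ha'
    -- `g r g⁻¹` and `g⁻¹ r g` commute with `a`
    have h1 : Commute a (g * r * g⁻¹) := by
      refine ct _ _ _ hv1 hg.symm ?_
      simpa using (commute_conj_iff g⁻¹).2 har
    have h2 : Commute a (g⁻¹ * r * g) := by
      have h3 : Commute (g * a * g⁻¹) r := ct a _ _ ha' hg har
      have := (commute_conj_iff g).2 h3
      simpa [mul_assoc] using this
    obtain ⟨l, hl⟩ := hr _ h1
    obtain ⟨l', hl'⟩ := hr _ h2
    have h3 : r ^ (l' * l - 1) = 1 := by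
      have : r = g⁻¹ * (g * r * g⁻¹) * g := by group
      have h4 : g⁻¹ * r ^ l * g = (g⁻¹ * r * g) ^ l := by
        have := map_zpow (MulAut.conj g⁻¹) r l
        simpa using this
      rw [zpow_sub, zpow_mul, ← hl', ← h4, ← hl]
      group
    have h4 := hr0 _ h3
    obtain ⟨j, hj⟩ := hr a (Commute.refl a)
    rcases Int.eq_one_or_neg_one_of_mul_eq_one' (show l' * l = 1 by omega) with
      ⟨-, rfl⟩ | ⟨-, rfl⟩
    · have h5 : Commute r g := by
        rw [zpow_one] at hl
        have : r * g = g * r := by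
          conv_lhs => rw [← hl]
          group
        exact this
      rw [hj]
      exact h5.zpow_left j
    · have h5 : g * r * g⁻¹ = r⁻¹ := by simpa using hl
      have h6 : Commute r (g * g) := by
        have h7 : g * r⁻¹ * g⁻¹ = r := by
          have : g * r⁻¹ * g⁻¹ = (g * r * g⁻¹)⁻¹ := by group
          rw [this, h5, inv_inv]
        have : r * (g * g) = g * g * r := by
          calc r * (g * g) = (g * r⁻¹ * g⁻¹) * (g * g) := by rw [h7]
            _ = g * r⁻¹ * g := by group
            _ = g * (g * r * g⁻¹) * g := by rw [h5]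
            _ = g * g * r := by group
        exact this
      obtain ⟨q, hq⟩ := hr (g * g) (by rw [hj]; exact h6.zpow_left j)
      have h8 : r ^ (2 * q) = 1 := by
        have h9 : g * r ^ q * g⁻¹ = (g * r * g⁻¹) ^ q := by
          have := map_zpow (MulAut.conj g) r q
          simpa using this
        rw [h5, ← hq] at h9
        have h10 : r ^ q = r⁻¹ ^ q := by rw [← h9, ← hq]; group
        rw [two_mul, zpow_add]
        nth_rewrite 1 [h10]
        group
      have h11 := hr0 _ h8
      have hq0 : q = 0 := by omega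
      rw [hq0, zpow_zero] at hq
      rw [ni g hq]
      exact Commute.one_right a

end Pool.Agent.Lib.MP_e97be0_al
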