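import Pool.Agent.Lib.MP_e97be0_al.ConjB

/-!
Admissible products in a group generated by a subgroup and a family of letters.
-/

namespace Pool.Agent.Lib.MP_e97be0_al

/-- A subgroup together with a family of letters closed under inversion. -/
structure ChData (Q : Type*) [Group Q] (ι : Type) where
  Kk : Subgroup Q
  c : ι → Q
  bar : ι → ι
  bar_bar : ∀ σ, bar (bar σ) = σ
  bar_ne : ∀ σ, bar σ ≠ σ
  c_bar : ∀ σ, c (bar σ) = (c σ)⁻¹

variable {Q : Type*} [Group Q] {ι : Type}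

/-- Admissible products `c σ₁ * k₁ * c σ₂ * k₂ * ...` with `n` letters. -/
def Ch (T : ChData Q ι) : ℕ → ι → ι → Q → Prop
  | 0, σ, τ, g => σ = τ ∧ g = 1
  | n + 1, σ, τ, g => ∃ σ' k g', k ∈ T.Kk ∧ ¬(σ' = T.bar σ ∧ k = 1) ∧ Ch T n σ' τ g' ∧
      g = T.c σ * k * g'

/-- The subgroup generated by the data. -/
def ChData.Gam (T : ChData Q ι) : Subgroup Q :=
  Subgroup.closure ((T.Kk : Set Q) ∪ Set.range T.c)

variable {T : ChData Q ι}

theorem ChData.K_le {k : Q} (hk : k ∈ T.Kk) : k ∈ T.Gam := Subgroup.subset_closure (Or.inl hk)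

theorem ChData.c_mem (σ : ι) : T.c σ ∈ T.Gam := Subgroup.subset_closure (Or.inr ⟨σ, rfl⟩)

theorem Ch.mul {n m : ℕ} {σ τ ρ : ι} {g h : Q} (hg : Ch T n σ τ g) (hh : Ch T m τ ρ h) :
    Ch T (n + m) σ ρ (g * h) := by
  induction n generalizing σ g with
  | zero =>
    obtain ⟨rfl, rfl⟩ := hg
    simpa using hh
  | succ n ih =>
    obtain ⟨σ', k, g', hk, ha, hg', rfl⟩ := hg
    rw [Nat.add_right_comm]
    exact ⟨σ', k, g' * h, hk, ha, ih hg', by group⟩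

theorem Ch.single {σ τ : ι} {k : Q} (hk : k ∈ T.Kk) (ha : ¬(τ = T.bar σ ∧ k = 1)) :
    Ch T 1 σ τ (T.c σ * k) := ⟨τ, k, 1, hk, ha, ⟨rfl, rfl⟩, by simp⟩

theorem Ch.pow {n : ℕ} {σ : ι} {g : Q} (hg : Ch T n σ σ g) (N : ℕ) : Ch T (N * n) σ σ (g ^ N) := by
  induction N with
  | zero => rw [Nat.zero_mul, pow_zero]; exact ⟨rfl, rfl⟩
  | succ N ih =>
    rw [pow_succ, Nat.succ_mul]
    exact ih.mul hg

theorem Ch.snoc {n : ℕ} {σ τ : ι} {g : Q} (hg : Ch T (n + 1) σ τ g) :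
    ∃ ρ g' k, Ch T n σ ρ g' ∧ k ∈ T.Kk ∧ g = g' * T.c ρ * k := by
  induction n generalizing σ g with
  | zero =>
    obtain ⟨σ', k, g', hk, -, ⟨-, rfl⟩, rfl⟩ := hg
    exact ⟨σ, 1, k, ⟨rfl, rfl⟩, hk, by simp⟩
  | succ n ih =>
    obtain ⟨σ', k, g', hk, ha, hg', rfl⟩ := hg
    obtain ⟨ρ, g'', k', h1, h2, rfl⟩ := ih hg'
    exact ⟨ρ, T.c σ * k * g'', k', ⟨σ', k, g'', hk, ha, h1, rfl⟩, h2, by group⟩

/-- Linear normal form. -/
def Lin (T : ChData Q ι) (m : ℕ) (g : Q) : Prop :=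
  ∃ σ τ k0 g' k1, k0 ∈ T.Kk ∧ Ch T m σ τ g' ∧ k1 ∈ T.Kk ∧ g = k0 * g' * T.c τ * k1

theorem lin_total {g : Q} (hg : g ∈ T.Gam) : g ∈ T.Kk ∨ ∃ m, Lin T m g := by
  have hK : ∀ k ∈ T.Kk, ∀ g, (g ∈ T.Kk ∨ ∃ m, Lin T m g) →
      (k * g ∈ T.Kk ∨ ∃ m, Lin T m (k * g)) := by
    rintro k hk g (hg | ⟨m, σ, τ, k0, g', k1, h0, h1, h2, rfl⟩)
    · exact Or.inl (T.Kk.mul_mem hk hg)
    · exact Or.inr ⟨m, σ, τ, k * k0, g', k1, T.Kk.mul_mem hk h0, h1, h2, by group⟩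
  have hc : ∀ ρ g, (g ∈ T.Kk ∨ ∃ m, Lin T m g) →
      (T.c ρ * g ∈ T.Kk ∨ ∃ m, Lin T m (T.c ρ * g)) := by
    rintro ρ g (hg | ⟨m, σ, τ, k0, g', k1, h0, h1, h2, rfl⟩)
    · exact Or.inr ⟨0, ρ, ρ, 1, 1, g, T.Kk.one_mem, ⟨rfl, rfl⟩, hg, by simp⟩
    · by_cases ha : σ = T.bar ρ ∧ k0 = 1
      · obtain ⟨rfl, rfl⟩ := ha
        rcases m with _ | m
        · obtain ⟨rfl, rfl⟩ := h1
          left
          rw [T.c_bar]
          simpa using h2
        · obtain ⟨σ', k, g'', hk, -, h3, rfl⟩ := h1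
          refine Or.inr ⟨m, σ', τ, k, g'', k1, hk, h3, h2, ?_⟩
          rw [T.c_bar]; group
      · exact Or.inr ⟨m + 1, ρ, τ, 1, T.c ρ * k0 * g', k1, T.Kk.one_mem,
          ⟨σ, k0, g', h0, ha, h1, rfl⟩, h2, by group⟩
  induction hg using Subgroup.closure_induction_left with
  | one => exact Or.inl T.Kk.one_mem
  | mul_left x hx y hy ih =>
    rcases hx with hx | ⟨ρ, rfl⟩
    · exact hK x hx y ih
    · exact hc ρ y ih
  | inv_mul_cancel x hx y hy ih =>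
    rcases hx with hx | ⟨ρ, rfl⟩
    · exact hK _ (T.Kk.inv_mem hx) y ih
    · rw [← T.c_bar]; exact hc _ y ih

theorem lin_cyc {m : ℕ} {g : Q} (hg : Lin T m g) :
    ∃ v ∈ T.Gam, v⁻¹ * g * v ∈ T.Kk ∨ ∃ σ n, Ch T (n + 1) σ σ (v⁻¹ * g * v) := by
  induction m using Nat.strong_induction_on generalizing g with
  | _ m ih =>
    obtain ⟨σ, τ, k0, g', k1, h0, h1, h2, rfl⟩ := hg
    by_cases ha : σ = T.bar τ ∧ k1 * k0 = 1
    · obtain ⟨rfl, hk⟩ := ha
      rcases m with _ | m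
      · exact absurd h1.1 (T.bar_ne τ)
      obtain ⟨σ', k, g'', hk', -, h3, rfl⟩ := h1
      have hv : k0 * T.c (T.bar τ) ∈ T.Gam := T.Gam.mul_mem (ChData.K_le h0) (ChData.c_mem _)
      have e : ∀ v : Q, (k0 * T.c (T.bar τ) * v)⁻¹ * (k0 * (T.c (T.bar τ) * k * g'') * T.c τ * k1) *
          (k0 * T.c (T.bar τ) * v) = v⁻¹ * (k * g'') * v := by
        intro v
        have : k1 = k0⁻¹ := eq_inv_of_mul_eq_one_left hk
        rw [this, T.c_bar]; group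
      rcases m with _ | m
      · obtain ⟨-, rfl⟩ := h3
        refine ⟨k0 * T.c (T.bar τ) * 1, by simpa using hv, Or.inl ?_⟩
        rw [e]; simpa using hk'
      · obtain ⟨ρ, g3, k3, h4, h5, rfl⟩ := h3.snoc
        obtain ⟨v, hv', h6⟩ := ih m (by omega) (g := k * (g3 * T.c ρ * k3))
          ⟨σ', ρ, k, g3, k3, hk', h4, h5, by group⟩
        refine ⟨k0 * T.c (T.bar τ) * v, T.Gam.mul_mem hv hv', ?_⟩
        rw [e]; exact h6
    · refine ⟨k0, ChData.K_le h0, Or.inr ⟨σ, m, ?_⟩⟩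
      have := h1.mul (Ch.single (T.Kk.mul_mem h2 h0) ha)
      convert this using 1
      group

theorem ch_cyc {g : Q} (hg : g ∈ T.Gam) :
    ∃ v ∈ T.Gam, v⁻¹ * g * v ∈ T.Kk ∨ ∃ σ n, Ch T (n + 1) σ σ (v⁻¹ * g * v) := by
  rcases lin_total hg with h | ⟨m, h⟩
  · exact ⟨1, T.Gam.one_mem, Or.inl (by simpa using h)⟩
  · exact lin_cyc h

variable {P : Type*} [Group P]

/-- The letters map to long words of an amalgam that cancel only at their ends. -/
structure Block (T : ChData Q ι) (M : Am P) (p : Q →* P) (F core : ι → P) : Prop where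
  nf : NF M
  hc : ∀ σ, p (T.c σ) = F σ * core σ * (F (T.bar σ))⁻¹
  wcore : ∀ σ, ∃ n, W M n true false (core σ)
  wjunc : ∀ σ σ', ∀ k ∈ T.Kk, ¬(σ' = T.bar σ ∧ k = 1) →
    ∃ l, (l = 0 ∨ l = 2) ∧ W M (l + 1) false true ((F (T.bar σ))⁻¹ * p k * F σ')
  injK : ∀ k ∈ T.Kk, p k = 1 → k = 1

variable {M : Am P} {p : Q →* P} {F core : ι → P}

theorem Block.map_W (B : Block T M p F core) {n : ℕ} {σ τ : ι} {g : Q} (h : Ch T n σ τ g) :
    ∃ m, n ≤ m ∧ W M m true true ((F σ)⁻¹ * p g * F τ) := by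
  induction n generalizing σ g with
  | zero =>
    obtain ⟨rfl, rfl⟩ := h
    exact ⟨0, le_rfl, rfl, by simp⟩
  | succ n ih =>
    obtain ⟨σ', k, g', hk, ha, hg', rfl⟩ := h
    obtain ⟨m, hm, h1⟩ := ih hg'
    obtain ⟨a, h2⟩ := B.wcore σ
    obtain ⟨l, -, h3⟩ := B.wjunc σ σ' k hk ha
    refine ⟨a + (l + 1) + m, by omega, ?_⟩
    have := (h2.mul h3).mul h1
    have e : core σ * ((F (T.bar σ))⁻¹ * p k * F σ') * ((F σ')⁻¹ * p g' * F τ) =
        (F σ)⁻¹ * p (T.c σ * k * g') * F τ := by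
      simp only [map_mul, B.hc]; group
    rwa [e] at this

theorem Block.inj (B : Block T M p F core) {g : Q} (hg : g ∈ T.Gam) (h : p g = 1) : g = 1 := by
  obtain ⟨v, -, hv⟩ := ch_cyc hg
  have h1 : p (v⁻¹ * g * v) = 1 := by simp [h]
  by_contra hg1
  rcases hv with hv | ⟨σ, n, hv⟩
  · exact conj_ne_one v hg1 (B.injK _ hv h1)
  · obtain ⟨m, hm, h2⟩ := B.map_W hv
    obtain ⟨m, rfl⟩ : ∃ m', m = m' + 1 := ⟨m - 1, by omega⟩
    apply W.ne_one B.nf h2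
    rw [h1]; group

/-- The cores carry recognisable markers. -/
structure Marked (T : ChData Q ι) (M : Am P) (p : Q →* P) (F core t1 y t3 : ι → P) : Prop
    extends Block T M p F core where
  top : M.Gam = ⊤
  maln : M.Maln
  hcore : ∀ σ, core σ = t1 σ * y σ * t3 σ
  w1 : ∀ σ, W M 1 true false (t1 σ)
  ymem : ∀ σ, y σ ∈ M.S false
  ynot : ∀ σ, y σ ∉ M.C
  w3 : ∀ σ, W M 1 true false (t3 σ)
  ha : ∀ σ τ, ∀ c ∈ M.C, ∀ c' ∈ M.C, t1 σ * c' = c * t1 τ → σ = τ ∧ c' = c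
  hb : ∀ σ τ, ∀ c ∈ M.C, ∀ c' ∈ M.C, t3 σ * c' ≠ c * t1 τ
  Kmem : ∀ k ∈ T.Kk, p k ∈ M.S true
  Ksurj : ∀ b ∈ M.S true, ∃ k ∈ T.Kk, p k = b

variable {t1 y t3 : ι → P}

namespace Marked

theorem w2 (B : Marked T M p F core t1 y t3) (σ : ι) : W M 1 false true (y σ) :=
  W.single (B.ymem σ) (B.ynot σ)

theorem head' (B : Marked T M p F core t1 y t3) {n : ℕ} {σ ρ : ι} {e : Q}
    (h : Ch T (n + 1) σ ρ e) :
    ∃ a z, W M a false true z ∧ (F σ)⁻¹ * p e * F ρ = t1 σ * y σ * t3 σ * z := by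
  obtain ⟨σ', k, g', hk, ha, hg', rfl⟩ := h
  obtain ⟨m, -, h1⟩ := B.map_W hg'
  obtain ⟨l, -, h3⟩ := B.wjunc σ σ' k hk ha
  refine ⟨_, _, h3.mul h1, ?_⟩
  simp only [map_mul, B.hc, B.hcore]; group

theorem head (B : Marked T M p F core t1 y t3) {n a : ℕ} {σ ρ : ι} {e : Q} {j : Bool} {z : P}
    (h : Ch T n σ ρ e) (hz : W M a false j z) :
    ∃ a' z', W M a' false j z' ∧ (F σ)⁻¹ * p e * F ρ * (t1 ρ * z) = t1 σ * z' := by
  rcases n with _ | n
  · obtain ⟨rfl, rfl⟩ := h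
    exact ⟨a, z, hz, by simp⟩
  · obtain ⟨b, z2, h1, h2⟩ := B.head' h
    refine ⟨_, _, (((B.w2 σ).mul (B.w3 σ)).mul h1).mul ((B.w1 ρ).mul hz), ?_⟩
    rw [h2]; group

theorem align (B : Marked T M p F core t1 y t3) {m : ℕ} : ∀ {n a b : ℕ} {σ ρ τ : ι} {e : Q}
    {z z' w : P} {j j' : Bool}, Ch T n σ ρ e → W M a false j z → W M m true true w → m < n →
    W M b false j' z' →
    (F σ)⁻¹ * p e * F ρ * (t1 ρ * z) = w * (t1 τ * y τ * t3 τ) * z' →
    F σ * w * (F τ)⁻¹ ∈ T.Gam.map p := by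
  induction m using Nat.strong_induction_on with
  | _ m ih =>
    intro n a b σ ρ τ e z z' w j j' he hz hw hmn hz' eq
    obtain ⟨n, rfl⟩ : ∃ n', n = n' + 1 := ⟨n - 1, by omega⟩
    obtain ⟨σ', k, e', hk, hadm, he', rfl⟩ := he
    obtain ⟨l, hl, hJ⟩ := B.wjunc σ σ' k hk hadm
    obtain ⟨a', z2, hz2, ez2⟩ := B.head he' hz
    set J := (F (T.bar σ))⁻¹ * p k * F σ' with hJdef
    have eq1 : t1 σ * y σ * t3 σ * J * (t1 σ' * z2) = w * (t1 τ * y τ * t3 τ) * z' := by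
      rw [← eq, ← ez2, hJdef]
      simp only [map_mul, B.hc, B.hcore]; group
    have h2 := (B.w1 σ).mul (B.w2 σ)
    have h3 := h2.mul (B.w3 σ)
    have hβ := h3.mul hJ
    have hR := (B.w1 σ').mul hz2
    have r3 := (B.w3 τ).mul hz'
    have r2 := (B.w2 τ).mul r3
    have r1 := (B.w1 τ).mul r2
    by_cases h : 4 + l ≤ m
    · obtain ⟨d, rfl⟩ : ∃ d, m = (1 + 1 + 1 + (l + 1)) + d := ⟨m - (4 + l), by omega⟩
      have h5 := W.levi B.nf hβ hR hw r1 (by rw [eq1]; group)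
      have h6 := ih d (by omega) (τ := τ) he' hz h5 (by omega) hz' (by
        rw [ez2]
        have : t1 σ' * z2 = (t1 σ * y σ * t3 σ * J)⁻¹ * (t1 σ * y σ * t3 σ * J * (t1 σ' * z2)) := by
          group
        rw [this, eq1]; group)
      have : F σ * w * (F τ)⁻¹ = p (T.c σ * k) *
          (F σ' * ((t1 σ * y σ * t3 σ * J)⁻¹ * w) * (F τ)⁻¹) := by
        rw [hJdef]
        simp only [map_mul, B.hc, B.hcore]; group
      rw [this]
      exact Subgroup.mul_mem _ ⟨_, T.Gam.mul_mem (ChData.c_mem σ) (ChData.K_le hk), rfl⟩ h6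
    · have hm : m = 0 ∨ m = 2 ∨ (m = 4 ∧ l = 2) := by
        obtain ⟨r, hr⟩ := hw.parity.1 rfl
        omega
      rcases hm with rfl | rfl | ⟨rfl, rfl⟩
      · have c1 := W.levi_eq B.nf (B.w1 σ) ((((B.w2 σ).mul (B.w3 σ)).mul hJ).mul hR)
          (hw.mul (B.w1 τ)) r2 (by
            have := eq1
            simp only [mul_assoc] at this ⊢
            exact this)
        have c2 := W.levi_eq B.nf h2 (((B.w3 σ).mul hJ).mul hR)
          ((hw.mul (B.w1 τ)).mul (B.w2 τ)) r3 (by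
            have := eq1
            simp only [mul_assoc] at this ⊢
            exact this)
        obtain ⟨rfl, h7⟩ := B.ha σ τ w hw.2 _ c1 (by group)
        have h8 : (t1 σ * y σ)⁻¹ * (w * t1 σ * y σ) = (y σ)⁻¹ * w * y σ := by
          conv_rhs => rw [← h7]
          group
        rw [h8] at c2
        have h9 : w = 1 := by
          by_contra h9
          exact B.ynot σ (B.maln w hw.2 h9 _ (B.ymem σ) c2)
        rw [h9]
        simp
      · exfalso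
        have c2 := W.levi_eq B.nf h2 (((B.w3 σ).mul hJ).mul hR) hw r1 (by
            have := eq1
            simp only [mul_assoc] at this ⊢
            exact this)
        have c3 := W.levi_eq B.nf h3 (hJ.mul hR) (hw.mul (B.w1 τ)) r2 (by
            have := eq1
            simp only [mul_assoc] at this ⊢
            exact this)
        exact B.hb σ τ _ c2 _ c3 (by group)
      · exfalso
        have c6 := W.levi_eq B.nf hβ hR ((hw.mul (B.w1 τ)).mul (B.w2 τ)) r3 (by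
            have := eq1
            simp only [mul_assoc] at this ⊢
            exact this)
        have c7 := W.levi_eq B.nf (hβ.mul (B.w1 σ')) hz2
          (((hw.mul (B.w1 τ)).mul (B.w2 τ)).mul (B.w3 τ)) hz' (by
            have := eq1
            simp only [mul_assoc] at this ⊢
            exact this)
        exact B.hb τ σ' _ (M.C.inv_mem c6) _ (M.C.inv_mem c7) (by group)

theorem hyp (B : Marked T M p F core t1 y t3) {n n' m : ℕ} {σ τ : ι} {c c' : Q} {w : P}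
    (hc : Ch T (n + 1) σ σ c) (hc' : Ch T (n' + 1) τ τ c') (hw : W M m true true w)
    (e : (F σ)⁻¹ * p c * F σ * w = w * ((F τ)⁻¹ * p c' * F τ)) :
    F σ * w * (F τ)⁻¹ ∈ T.Gam.map p := by
  obtain ⟨a, z, hz, ez⟩ := B.head' hc
  obtain ⟨a', z', hz', ez'⟩ := B.head' hc'
  obtain ⟨m2, -, hm2⟩ := B.map_W (hc'.pow (m + 1))
  refine B.align (hc.pow (m + 1)) ((((B.w2 σ).mul (B.w3 σ)).mul hz).mul hw) hw ?_
    (hz'.mul hm2) ?_
  · have : m + 1 ≤ (m + 1) * (n + 1) := Nat.le_mul_of_pos_right _ (by omega)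
    omega
  · have h1 : SemiconjBy w ((F τ)⁻¹ * p c' * F τ) ((F σ)⁻¹ * p c * F σ) := e.symm
    have h2 := (h1.pow_right (m + 1)).eq
    have h3 : ∀ (f x : P) (N : ℕ), (f⁻¹ * x * f) ^ N = f⁻¹ * x ^ N * f := by
      intro f x N
      have := map_pow (MulAut.conj f⁻¹) x N
      simpa using this.symm
    rw [h3, h3, ← map_pow, ← map_pow] at h2
    have h4 : t1 σ * (y σ * t3 σ * z * w) = w * ((F τ)⁻¹ * p c' * F τ) := by
      rw [← e, ez]; group
    rw [h4, ← mul_assoc, ← h2]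
    have h5 : Commute ((F τ)⁻¹ * p (c' ^ (m + 1)) * F τ) ((F τ)⁻¹ * p c' * F τ) := by
      rw [commute_conj_iff, map_pow]
      exact (Commute.refl _).pow_left _
    rw [mul_assoc, h5.eq, ez']
    group

theorem malnormal (B : Marked T M p F core t1 y t3) {c c' : Q} (hc : c ∈ T.Gam) (hc1 : c ≠ 1)
    (hc' : c' ∈ T.Gam) {g : P} (e : g⁻¹ * p c * g = p c') : g ∈ T.Gam.map p := by
  have hT : ∀ x : P, x ∈ M.Gam := fun x => by rw [B.top]; trivial
  obtain ⟨v, hv, h⟩ := ch_cyc hc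
  obtain ⟨v', hv', h'⟩ := ch_cyc hc'
  have e' : ((p v)⁻¹ * g * p v')⁻¹ * p (v⁻¹ * c * v) * ((p v)⁻¹ * g * p v') =
      p (v'⁻¹ * c' * v') := by
    simp only [map_mul, map_inv, ← e]; group
  suffices H : (p v)⁻¹ * g * p v' ∈ T.Gam.map p by
    have : g = p v * ((p v)⁻¹ * g * p v') * (p v')⁻¹ := by group
    rw [this]
    exact Subgroup.mul_mem _ (Subgroup.mul_mem _ ⟨v, hv, rfl⟩ H)
      (Subgroup.inv_mem _ ⟨v', hv', rfl⟩)
  have h1 := conj_ne_one v hc1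
  generalize v⁻¹ * c * v = d at *
  generalize v'⁻¹ * c' * v' = d' at *
  generalize (p v)⁻¹ * g * p v' = w at *
  rcases h with hk | ⟨σ, n, hd⟩
  · rcases h' with hk' | ⟨τ, n', hd'⟩
    · have hw : w ∈ M.S true := maln_true B.nf B.top B.maln (B.Kmem d hk)
        (fun h => h1 (B.injK d hk h)) (by rw [e']; exact B.Kmem d' hk')
      obtain ⟨k, hk, rfl⟩ := B.Ksurj w hw
      exact ⟨k, ChData.K_le hk, rfl⟩
    · exfalso
      obtain ⟨a, ha, ha'⟩ := B.map_W hd'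
      obtain ⟨a, rfl⟩ : ∃ a', a = a' + 1 := ⟨a - 1, by omega⟩
      refine W.cyc_not_conj B.nf (k := true) ha' (hT ((F τ)⁻¹ * w⁻¹)) ?_
      convert B.Kmem d hk using 1
      rw [← e']; group
  · obtain ⟨a, ha, ha'⟩ := B.map_W hd
    obtain ⟨a, rfl⟩ : ∃ a', a = a' + 1 := ⟨a - 1, by omega⟩
    rcases h' with hk' | ⟨τ, n', hd'⟩
    · exfalso
      refine W.cyc_not_conj B.nf (k := true) ha' (hT ((F σ)⁻¹ * w)) ?_
      convert B.Kmem d' hk' using 1
      rw [← e']; group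
    · obtain ⟨b, hb, hb'⟩ := B.map_W hd'
      obtain ⟨b, rfl⟩ : ∃ a', b = a' + 1 := ⟨b - 1, by omega⟩
      have e2 : (F σ)⁻¹ * p d * F σ * ((F σ)⁻¹ * w * F τ) =
          ((F σ)⁻¹ * w * F τ) * ((F τ)⁻¹ * p d' * F τ) := by rw [← e']; group
      rcases W.forward_or B.nf ha' hb' (hT _) e2 with ⟨l, hl⟩ | ⟨l, hl⟩
      · have := B.hyp hd hd' hl e2
        convert this using 1
        group
      · have := B.hyp hd' hd hl (by rw [← e']; group)
        convert Subgroup.inv_mem _ this using 1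
        group

end Marked

end Pool.Agent.Lib.MP_e97be0_al
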