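import Pool.Agent.Lib.MP_e97be0_al.Amalg

/-!
The subgroup generated by `L₁` and `y⁻¹ L₂ y` in a free product `⟨y⟩ * G`.
-/

namespace Pool.Agent.Lib.MP_e97be0_al

variable {P Q : Type*} [Group P] [Group Q]

/-- Hypotheses on the map `p` from an auxiliary group. -/
structure FreeData (M : Am P) (M0 : Am Q) (p : Q →* P) (y : P) : Prop where
  nf : NF M
  bot : M.C = ⊥
  bot0 : M0.C = ⊥
  ymem : y ∈ M.S false
  yy : y * y ≠ 1
  h0 : ∀ x ∈ M0.S false, x ≠ 1 → p x ∈ M.S true ∧ p x ≠ 1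
  h1 : ∀ x ∈ M0.S true, x ≠ 1 → y * p x * y⁻¹ ∈ M.S true ∧ y * p x * y⁻¹ ≠ 1

variable {M : Am P} {M0 : Am Q} {p : Q →* P} {y : P}

namespace FreeData

theorem notC (D : FreeData M M0 p y) {x : P} (hx : x ≠ 1) : x ∉ M.C := by
  rw [D.bot]; simpa using hx

theorem ne0 (D : FreeData M M0 p y) {x : Q} (hx : x ∉ M0.C) : x ≠ 1 := by
  rw [D.bot0] at hx; simpa using hx

theorem y_ne (D : FreeData M M0 p y) : y ≠ 1 := by
  intro e; apply D.yy; rw [e, mul_one]

theorem wy (D : FreeData M M0 p y) : W M 1 false true y := W.single D.ymem (D.notC D.y_ne)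

theorem wy' (D : FreeData M M0 p y) : W M 1 false true y⁻¹ :=
  W.single ((M.S _).inv_mem D.ymem) (D.notC (by simpa using D.y_ne))

theorem w0 (D : FreeData M M0 p y) {x : Q} (hx : x ∈ M0.S false) (hxC : x ∉ M0.C) :
    W M 1 true false (p x) :=
  W.single (D.h0 x hx (D.ne0 hxC)).1 (D.notC (D.h0 x hx (D.ne0 hxC)).2)

theorem w1 (D : FreeData M M0 p y) {x : Q} (hx : x ∈ M0.S true) (hxC : x ∉ M0.C) :
    W M 1 true false (y * p x * y⁻¹) :=
  W.single (D.h1 x hx (D.ne0 hxC)).1 (D.notC (D.h1 x hx (D.ne0 hxC)).2)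

theorem map_W (D : FreeData M M0 p y) {n : ℕ} {i j : Bool} {g : Q} (h : W M0 n i j g) :
    ∃ m, n ≤ m ∧ W M m (!i) (!j) (p g) := by
  induction n generalizing i g with
  | zero =>
    obtain ⟨rfl, hc⟩ := h
    rw [D.bot0, Subgroup.mem_bot] at hc
    subst hc
    exact ⟨0, le_rfl, rfl, by simp⟩
  | succ n ih =>
    obtain ⟨x, g', hx, hxC, hg', rfl⟩ := h
    obtain ⟨m, hm, h2⟩ := ih hg'
    cases i with
    | false =>
      refine ⟨1 + m, by omega, ?_⟩
      rw [map_mul]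
      exact (D.w0 hx hxC).mul h2
    | true =>
      refine ⟨1 + 1 + 1 + m, by omega, ?_⟩
      have := ((D.wy'.mul (D.w1 hx hxC)).mul D.wy).mul h2
      have e : y⁻¹ * (y * p x * y⁻¹) * y * p g' = p (x * g') := by rw [map_mul]; group
      rw [e] at this
      exact this

theorem inj (D : FreeData M M0 p y) {g : Q} (hg : g ∈ M0.Gam) (h : p g = 1) : g = 1 := by
  obtain ⟨n, i, j, hw⟩ := W.total hg
  obtain ⟨m, hm, h2⟩ := D.map_W hw
  rcases n with _ | n
  · have := hw.2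
    rwa [D.bot0, Subgroup.mem_bot] at this
  · obtain ⟨m, rfl⟩ : ∃ m', m = m' + 1 := ⟨m - 1, by omega⟩
    exact absurd h (W.ne_one D.nf h2)

theorem split (D : FreeData M M0 p y) {n : ℕ} {e : Q} (h : W M0 (n + 1) false false e) :
    ∃ (n' : ℕ) (k1 k2 e' : Q), n = n' + 1 ∧ k1 * k2 ∈ M0.Gam ∧ W M0 n' false false e' ∧
      W M 1 true false (p k1) ∧ W M 1 true false (y * p k2 * y⁻¹) ∧ e = k1 * k2 * e' := by
  have hp := h.parity.1 rfl
  rcases n with _ | n
  · simp at hp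
  obtain ⟨k1, e1, hk1, hk1C, ⟨k2, e', hk2, hk2C, he', rfl⟩, rfl⟩ := h
  exact ⟨n, k1, k2, e', rfl, M0.Gam.mul_mem (S_le_Gam _ hk1) (S_le_Gam _ hk2), he',
    D.w0 hk1 hk1C, D.w1 hk2 hk2C, by group⟩

theorem align (D : FreeData M M0 p y) {m : ℕ} : ∀ {n a b : ℕ} {e : Q} {z z' w k : P}
    {j j' : Bool}, W M0 n false false e → W M a true j z → W M m true true w → m < n →
    W M 1 true false k → W M b true j' z' → p e * z = w * k * y⁻¹ * z' →
    w ∈ M0.Gam.map p := by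
  induction m using Nat.strong_induction_on with
  | _ m ih =>
    intro n a b e z z' w k j j' he hz hw hmn hk hz' eq
    obtain ⟨n, rfl⟩ : ∃ n', n = n' + 1 := ⟨n - 1, by omega⟩
    obtain ⟨n', k1, k2, e', rfl, hkG, he', hk1, hk2, rfl⟩ := D.split he
    obtain ⟨m', -, hm'⟩ := D.map_W he'
    have htail : W M (m' + a) true j (p e' * z) := hm'.mul hz
    have h3 := (hk1.mul D.wy').mul hk2
    have h4 := h3.mul D.wy
    have e4 : p k1 * y⁻¹ * (y * p k2 * y⁻¹) * y = p (k1 * k2) := by rw [map_mul]; group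
    have hpar := hw.parity.1 rfl
    have hrest := (hk.mul D.wy').mul hz'
    by_cases h : 4 ≤ m
    · obtain ⟨d, rfl⟩ : ∃ d, m = (1 + 1 + 1 + 1) + d := ⟨m - 4, by omega⟩
      rw [e4] at h4
      have h5 := W.levi D.nf h4 htail hw hrest (by
        rw [← mul_assoc, ← map_mul, eq]; group)
      have h6 := ih d (by omega) he' hz h5 (by omega) hk hz' (by
        have : p e' * z = (p (k1 * k2))⁻¹ * (p (k1 * k2 * e') * z) := by
          rw [map_mul p (k1 * k2)]; group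
        rw [this, eq]; group)
      have : w = p (k1 * k2) * ((p (k1 * k2))⁻¹ * w) := by group
      rw [this]
      exact Subgroup.mul_mem _ ⟨_, hkG, rfl⟩ h6
    · have hm : m = 0 ∨ m = 2 := by
        obtain ⟨r, hr⟩ := hpar
        omega
      rcases hm with rfl | rfl
      · have := hw.2
        rw [D.bot, Subgroup.mem_bot] at this
        rw [this]; exact Subgroup.one_mem _
      · exfalso
        have eq' : p k1 * y⁻¹ * (y * p k2 * y⁻¹) * y * (p e' * z) = w * k * y⁻¹ * z' := by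
          rw [e4, ← mul_assoc, ← map_mul, eq]
        have h5 := W.levi_eq D.nf h3 (D.wy.mul htail) (hw.mul hk) (D.wy'.mul hz') (by
          rw [← mul_assoc, eq']; group)
        have h6 := W.levi_eq D.nf h4 htail ((hw.mul hk).mul D.wy') hz' eq'
        rw [D.bot, Subgroup.mem_bot, inv_mul_eq_one] at h5 h6
        rw [h5] at h6
        have h7 : y = y⁻¹ := mul_left_cancel h6
        apply D.yy
        nth_rewrite 1 [h7]
        group

theorem hyp (D : FreeData M M0 p y) {n n' m : ℕ} {c c' : Q} {w : P}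
    (hc : W M0 (n + 1) false false c) (hc' : W M0 (n' + 1) false false c')
    (hw : W M m true true w) (e : p c * w = w * p c') : w ∈ M0.Gam.map p := by
  obtain ⟨n2, k1, k2, e', rfl, -, he', hk1, hk2, rfl⟩ := D.split hc'
  obtain ⟨m1, -, hm1⟩ := D.map_W he'
  obtain ⟨m2, -, hm2⟩ := D.map_W (hc'.pow m)
  have hz' := ((hk2.mul D.wy).mul hm1).mul hm2
  refine D.align (hc.pow (m + 1)) hw hw ?_ hk1 hz' ?_
  · have : m + 1 ≤ (m + 1) * (n + 1) := Nat.le_mul_of_pos_right _ (by omega)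
    omega
  · have h1 : SemiconjBy w (p (k1 * k2 * e')) (p c) := e.symm
    have h2 := (h1.pow_right (m + 1)).eq
    rw [map_pow, ← h2, pow_succ', map_pow]
    generalize p (k1 * k2 * e') ^ m = X
    simp only [map_mul]
    group

theorem maln (D : FreeData M M0 p y) (hG : M.Gam = ⊤) (hm : M.Maln)
    (m1 : ∀ x ∈ M0.S false, x ≠ 1 → ∀ x' ∈ M0.S false, ∀ g ∈ M.S true,
      g⁻¹ * p x * g = p x' → ∃ z ∈ M0.S false, g = p z)
    (m2 : ∀ x ∈ M0.S true, x ≠ 1 → ∀ x' ∈ M0.S true, ∀ g ∈ M.S true,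
      g⁻¹ * (y * p x * y⁻¹) * g = y * p x' * y⁻¹ → ∃ z ∈ M0.S true, g = y * p z * y⁻¹)
    (m3 : ∀ x ∈ M0.S false, x ≠ 1 → ∀ x' ∈ M0.S true, ∀ g ∈ M.S true,
      g⁻¹ * p x * g ≠ y * p x' * y⁻¹)
    {c c' : Q} (hc : c ∈ M0.Gam) (hc1 : c ≠ 1) (hc' : c' ∈ M0.Gam) {g : P}
    (e : g⁻¹ * p c * g = p c') : g ∈ M0.Gam.map p := by
  have hT : ∀ x : P, x ∈ M.Gam := fun x => by rw [hG]; trivial
  -- normal forms up to conjugation
  have nf : ∀ c ∈ M0.Gam, ∃ v ∈ M0.Gam, (∃ k, v⁻¹ * c * v ∈ M0.S k) ∨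
      ∃ m, W M0 (m + 1) false false (v⁻¹ * c * v) := by
    intro c hc
    obtain ⟨n, i, j, h⟩ := W.total hc
    obtain ⟨v, hv, h | ⟨k, m, h⟩⟩ := h.trich
    · exact ⟨v, hv, Or.inl h⟩
    · obtain ⟨v', hv', h'⟩ := h.rotate false
      refine ⟨v * v', M0.Gam.mul_mem hv hv', Or.inr ⟨m, ?_⟩⟩
      convert h' using 1
      group
  obtain ⟨v, hv, h⟩ := nf c hc
  obtain ⟨v', hv', h'⟩ := nf c' hc'
  have hc1' : c' ≠ 1 := by
    rintro rfl
    rw [map_one] at e
    apply conj_ne_one g (fun h => hc1 (D.inj hc h)) e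
  have e' : ((p v)⁻¹ * g * p v')⁻¹ * p (v⁻¹ * c * v) * ((p v)⁻¹ * g * p v') =
      p (v'⁻¹ * c' * v') := by
    simp only [map_mul, map_inv, ← e]; group
  suffices H : (p v)⁻¹ * g * p v' ∈ M0.Gam.map p by
    have : g = p v * ((p v)⁻¹ * g * p v') * (p v')⁻¹ := by group
    rw [this]
    exact Subgroup.mul_mem _ (Subgroup.mul_mem _ ⟨v, hv, rfl⟩ H)
      (Subgroup.inv_mem _ ⟨v', hv', rfl⟩)
  have h1 := conj_ne_one v hc1
  have h1' := conj_ne_one v' hc1'
  generalize v⁻¹ * c * v = d at *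
  generalize v'⁻¹ * c' * v' = d' at *
  generalize (p v)⁻¹ * g * p v' = w at *
  -- an element of a factor maps to a conjugate of an element of `S true`
  have fac : ∀ k, ∀ x ∈ M0.S k, x ≠ 1 → ∃ s : P, s⁻¹ * p x * s ∈ M.S true := by
    intro k x hx hx1
    cases k
    · exact ⟨1, by simpa using (D.h0 x hx hx1).1⟩
    · exact ⟨y⁻¹, by simpa using (D.h1 x hx hx1).1⟩
  rcases h with ⟨k, hk⟩ | ⟨m, hm1⟩
  · rcases h' with ⟨k', hk'⟩ | ⟨m', hm'⟩
    · cases k <;> cases k'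
      · have hw : w ∈ M.S true := maln_true D.nf hG hm (D.h0 d hk h1).1 (D.h0 d hk h1).2
          (by rw [e']; exact (D.h0 d' hk' h1').1)
        obtain ⟨z, hz, rfl⟩ := m1 d hk h1 d' hk' w hw e'
        exact ⟨z, S_le_Gam _ hz, rfl⟩
      · exfalso
        have e2 : (w * y⁻¹)⁻¹ * p d * (w * y⁻¹) = y * p d' * y⁻¹ := by rw [← e']; group
        have hw : w * y⁻¹ ∈ M.S true := maln_true D.nf hG hm (D.h0 d hk h1).1 (D.h0 d hk h1).2
          (by rw [e2]; exact (D.h1 d' hk' h1').1)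
        exact m3 d hk h1 d' hk' _ hw e2
      · exfalso
        have e2 : (w⁻¹ * y⁻¹)⁻¹ * p d' * (w⁻¹ * y⁻¹) = y * p d * y⁻¹ := by rw [← e']; group
        have hw : w⁻¹ * y⁻¹ ∈ M.S true :=
          maln_true D.nf hG hm (D.h0 d' hk' h1').1 (D.h0 d' hk' h1').2
          (by rw [e2]; exact (D.h1 d hk h1).1)
        exact m3 d' hk' h1' d hk _ hw e2
      · have e2 : (y * w * y⁻¹)⁻¹ * (y * p d * y⁻¹) * (y * w * y⁻¹) = y * p d' * y⁻¹ := by
          rw [← e']; group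
        have hw : y * w * y⁻¹ ∈ M.S true :=
          maln_true D.nf hG hm (D.h1 d hk h1).1 (D.h1 d hk h1).2
          (by rw [e2]; exact (D.h1 d' hk' h1').1)
        obtain ⟨z, hz, hz'⟩ := m2 d hk h1 d' hk' _ hw e2
        refine ⟨z, S_le_Gam _ hz, ?_⟩
        exact (mul_left_cancel (mul_right_cancel hz')).symm
    · exfalso
      obtain ⟨s, hs⟩ := fac k d hk h1
      obtain ⟨a, ha, ha'⟩ := D.map_W hm'
      obtain ⟨a, rfl⟩ : ∃ a', a = a' + 1 := ⟨a - 1, by omega⟩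
      refine W.cyc_not_conj D.nf (k := true) ha' (hT (w⁻¹ * s)) ?_
      convert hs using 1
      rw [← e']; group
  · obtain ⟨a, ha, ha'⟩ := D.map_W hm1
    obtain ⟨a, rfl⟩ : ∃ a', a = a' + 1 := ⟨a - 1, by omega⟩
    rcases h' with ⟨k', hk'⟩ | ⟨m', hm'⟩
    · exfalso
      obtain ⟨s, hs⟩ := fac k' d' hk' h1'
      refine W.cyc_not_conj D.nf (k := true) ha' (hT (w * s)) ?_
      convert hs using 1
      rw [← e']; group
    · obtain ⟨b, hb, hb'⟩ := D.map_W hm'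
      obtain ⟨b, rfl⟩ : ∃ a', b = a' + 1 := ⟨b - 1, by omega⟩
      have e2 : p d * w = w * p d' := by rw [← e']; group
      rcases W.forward_or D.nf ha' hb' (hT w) e2 with ⟨l, hl⟩ | ⟨l, hl⟩
      · exact D.hyp hm1 hm' hl e2
      · have := D.hyp hm' hm1 hl (by rw [← e']; group)
        simpa using Subgroup.inv_mem _ this

end FreeData

end Pool.Agent.Lib.MP_e97be0_al
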