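import Pool.Agent.Lib.MP_e97be0_al.ConjA

/-!
The extension step making two centralizers conjugate.
-/

namespace Pool.Agent.Lib.MP_e97be0_al

open Function

theorem mem_cent {G : Type*} [Group G] {h k : G} :
    k ∈ Subgroup.centralizer ({h} : Set G) ↔ Commute h k := by
  rw [Subgroup.mem_centralizer_singleton_iff]
  exact ⟨fun e => e.symm, fun e => e.eq.symm⟩

theorem cent_comm {G : Type*} [Group G] (kG : K G) {h : G} (hh : h ≠ 1)
    (x y : Subgroup.centralizer ({h} : Set G)) : Commute x y :=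
  Subtype.ext (kG.ct h x y hh (mem_cent.1 x.2) (mem_cent.1 y.2)).eq

theorem K.prod_comm {A B : Type*} [Group A] [Group B] (hA : ∀ x y : A, Commute x y)
    (hB : ∀ x y : B, Commute x y) (kA : K A) (kB : K B) : K (A × B) :=
  K.of_comm (fun _ _ => Prod.ext (hA _ _).eq (hB _ _).eq)
    (fun _ hg => Prod.ext (kA.ni _ (congrArg Prod.fst hg)) (kB.ni _ (congrArg Prod.snd hg)))

theorem K.subgroup {G : Type*} [Group G] (kG : K G) (S : Subgroup G) : K S :=
  K.of_injective S.subtype S.subtype_injective kG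

theorem gen_sq_ne {P : Type*} [Group P] (i : Multiplicative ℤ →* P) (hi : Injective i) :
    i (Multiplicative.ofAdd 1) * i (Multiplicative.ofAdd 1) ≠ 1 := by
  intro e
  rw [← map_mul, ← i.map_one] at e
  have := congrArg Multiplicative.toAdd (hi e)
  simp at this

/-- Amalgamating two groups along a subgroup of their product. -/
theorem exists_glue {A B : Type} [Group A] [Group B] (kA : K A) (kB : K B)
    (Γ : Subgroup (A × B)) (h1 : ∀ g ∈ Γ, g.1 = 1 → g = 1) (h2 : ∀ g ∈ Γ, g.2 = 1 → g = 1)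
    (hm : ∀ c ∈ Γ, c ≠ 1 → ∀ c' ∈ Γ, ∀ x : A, x⁻¹ * c.1 * x = c'.1 →
      x ∈ Γ.map (MonoidHom.fst A B)) :
    ∃ (P : Type) (_ : Group P) (iA : A →* P) (iB : B →* P),
      Injective iA ∧ (∀ c ∈ Γ, iA c.1 = iB c.2) ∧ K P := by
  obtain ⟨P, _, iA, iB, M, i1, -, i3, -, -, -, -, -, -, kP⟩ :=
    exists_amalgam_K (C := Γ) ((MonoidHom.fst A B).comp Γ.subtype)
      ((MonoidHom.snd A B).comp Γ.subtype)
      ((injective_iff_map_eq_one _).2 fun g hg => Subtype.ext (h1 g g.2 hg))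
      ((injective_iff_map_eq_one _).2 fun g hg => Subtype.ext (h2 g g.2 hg)) kA kB (by
        rintro c hc x ⟨c', hc'⟩
        obtain ⟨z, hz, rfl⟩ := hm c c.2 (fun e => hc (Subtype.ext e)) c' c'.2 x hc'.symm
        exact ⟨⟨z, hz⟩, rfl⟩)
  exact ⟨P, inferInstance, iA, iB, i1, fun c hc => i3 ⟨c, hc⟩, kP⟩

theorem conj_step {G : Type} [Group G] (kG : K G) {h a : G} (hh : h ≠ 1) (ha : a ≠ 1) :
    ∃ (G' : Type) (_ : Group G') (f : G →* G'), Injective f ∧ K G' ∧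
      ∃ t : G', Commute (f h) (t⁻¹ * f a * t) := by
  by_cases hsep : ∃ t : G, Commute h (t⁻¹ * a * t)
  · exact ⟨G, inferInstance, MonoidHom.id G, injective_id, kG, hsep⟩
  push Not at hsep
  set K1 := Subgroup.centralizer ({h} : Set G)
  set K2 := Subgroup.centralizer ({a} : Set G)
  have kE : K (K1 × K2) :=
    K.prod_comm (cent_comm kG hh) (cent_comm kG ha) (kG.subgroup _) (kG.subgroup _)
  obtain ⟨G1, _, iA1, iB1, M1, a1, b1, s1, t1, c1, n1, g1, m1, k1⟩ := exists_free_K kG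
  obtain ⟨D, _, iA2, iB2, M2, a2, b2, s2, t2, c2, n2, g2, m2, k2⟩ := exists_free_K kE
  set y := iA1 (Multiplicative.ofAdd 1) with hy
  set t := iA2 (Multiplicative.ofAdd 1) with ht
  let ψ0 : K1 →* G1 × D := (iB1.comp K1.subtype).prod (iB2.comp (MonoidHom.inl K1 K2))
  let ψ1 : K2 →* G1 × D :=
    ((MulAut.conj y⁻¹).toMonoidHom.comp (iB1.comp K2.subtype)).prod
      ((MulAut.conj t⁻¹).toMonoidHom.comp (iB2.comp (MonoidHom.inr K1 K2)))
  have e0 : ∀ k, ψ0 k = (iB1 k, iB2 (k, 1)) := fun k => rfl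
  have e1 : ∀ k, ψ1 k = (y⁻¹ * iB1 k * y, t⁻¹ * iB2 (1, k) * t) := fun k => by
    simp [ψ1]
  let M0 : Am (G1 × D) := ⟨fun i => cond i ψ1.range ψ0.range, ⊥, fun _ => bot_le⟩
  have D1 : FreeData M1 M0 (MonoidHom.fst G1 D) y := by
    refine ⟨n1, c1, rfl, by rw [s1]; exact ⟨_, rfl⟩, gen_sq_ne iA1 a1, ?_, ?_⟩
    · rintro _ ⟨k, rfl⟩ hk
      rw [t1]
      refine ⟨⟨k, rfl⟩, fun e => hk ?_⟩
      have : k = 1 := Subtype.ext (b1 (by simpa [e0] using e))
      rw [this, map_one]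
    · rintro _ ⟨k, rfl⟩ hk
      have : y * (MonoidHom.fst G1 D) (ψ1 k) * y⁻¹ = iB1 k := by
        rw [e1]; simp [mul_assoc]
      rw [t1, this]
      refine ⟨⟨k, rfl⟩, fun e => hk ?_⟩
      have : k = 1 := Subtype.ext (b1 (by simpa using e))
      rw [this, map_one]
  have D2 : FreeData M2 M0 (MonoidHom.snd G1 D) t := by
    refine ⟨n2, c2, rfl, by rw [s2]; exact ⟨_, rfl⟩, gen_sq_ne iA2 a2, ?_, ?_⟩
    · rintro _ ⟨k, rfl⟩ hk
      rw [t2]
      refine ⟨⟨(k, 1), rfl⟩, fun e => hk ?_⟩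
      have : ((k, 1) : K1 × K2) = 1 := b2 (by rw [map_one]; exact e)
      have : k = 1 := congrArg Prod.fst this
      rw [this, map_one]
    · rintro _ ⟨k, rfl⟩ hk
      have : t * (MonoidHom.snd G1 D) (ψ1 k) * t⁻¹ = iB2 (1, k) := by
        rw [e1]; simp [mul_assoc]
      rw [t2, this]
      refine ⟨⟨_, rfl⟩, fun e => hk ?_⟩
      have : ((1, k) : K1 × K2) = 1 := b2 (by rw [map_one]; exact e)
      have : k = 1 := congrArg Prod.snd this
      rw [this, map_one]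
  have f1 : ∀ k, y * (MonoidHom.fst G1 D) (ψ1 k) * y⁻¹ = iB1 k := fun k => by
    rw [e1]; simp [mul_assoc]
  obtain ⟨P, _, jA, jB, inj, hj, kP⟩ := exists_glue k1 k2 M0.Gam
    (fun g hg e => D1.inj hg e) (fun g hg e => D2.inj hg e) (by
      intro c hc hc1 c' hc' x e
      refine D1.maln g1 m1 ?_ ?_ ?_ hc hc1 hc' e
      · rintro _ ⟨k, rfl⟩ hk _ ⟨k', rfl⟩ g hg e
        rw [t1] at hg
        obtain ⟨g, rfl⟩ := hg
        have e' : g⁻¹ * k * g = k' := b1 (by simpa [e0] using e)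
        have hk1 : (k : G) ≠ 1 := fun e => hk (by rw [show k = 1 from Subtype.ext e, map_one])
        have : Commute h g := kG.maln hh (mem_cent.1 k.2) hk1 (by rw [e']; exact mem_cent.1 k'.2)
        exact ⟨ψ0 ⟨g, mem_cent.2 this⟩, ⟨_, rfl⟩, rfl⟩
      · rintro _ ⟨k, rfl⟩ hk _ ⟨k', rfl⟩ g hg e
        rw [t1] at hg
        obtain ⟨g, rfl⟩ := hg
        rw [f1, f1] at e
        have e' : g⁻¹ * k * g = k' := b1 (by simpa using e)
        have hk1 : (k : G) ≠ 1 := fun e => hk (by rw [show k = 1 from Subtype.ext e, map_one])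
        have : Commute a g := kG.maln ha (mem_cent.1 k.2) hk1 (by rw [e']; exact mem_cent.1 k'.2)
        exact ⟨ψ1 ⟨g, mem_cent.2 this⟩, ⟨_, rfl⟩, (f1 ⟨g, mem_cent.2 this⟩).symm⟩
      · rintro _ ⟨k, rfl⟩ hk _ ⟨k', rfl⟩ g hg e
        rw [t1] at hg
        obtain ⟨g, rfl⟩ := hg
        rw [f1] at e
        have e' : g⁻¹ * k * g = k' := b1 (by simpa [e0] using e)
        have hk1 : (k : G) ≠ 1 := fun e => hk (by rw [show k = 1 from Subtype.ext e, map_one])
        apply hsep g⁻¹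
        refine kG.ct k _ _ hk1 (mem_cent.1 k.2).symm ?_
        have h1 : Commute (k' : G) a := (mem_cent.1 k'.2).symm
        rw [← e'] at h1
        have := (commute_conj_iff g⁻¹).2 h1
        simpa [mul_assoc] using this)
  refine ⟨P, inferInstance, jA.comp iB1, inj.comp b1, kP, jA y * (jB t)⁻¹, ?_⟩
  have u0 := hj (ψ0 ⟨h, mem_cent.2 (Commute.refl h)⟩) (S_le_Gam (M := M0) false ⟨_, rfl⟩)
  have u1 := hj (ψ1 ⟨a, mem_cent.2 (Commute.refl a)⟩) (S_le_Gam (M := M0) true ⟨_, rfl⟩)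
  rw [e0] at u0
  rw [e1] at u1
  simp only [map_mul, map_inv] at u0 u1
  have u2 : (jA y * (jB t)⁻¹)⁻¹ * (jA.comp iB1) a * (jA y * (jB t)⁻¹) =
      jB (iB2 (1, ⟨a, mem_cent.2 (Commute.refl a)⟩)) := by
    have : (jA y * (jB t)⁻¹)⁻¹ * (jA.comp iB1) a * (jA y * (jB t)⁻¹) =
        jB t * ((jA y)⁻¹ * jA (iB1 a) * jA y) * (jB t)⁻¹ := by
      simp only [MonoidHom.comp_apply]; group
    rw [this, u1]; group
  rw [u2, MonoidHom.comp_apply, u0]
  apply Commute.map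
  apply Commute.map
  exact Prod.ext (by simp) (by simp)

end Pool.Agent.Lib.MP_e97be0_al
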