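import Pool.Agent.Lib.MP_e97be0_al.Chain

/-!
The extension step writing a given element as a bounded product from a double coset.
-/

namespace Pool.Agent.Lib.MP_e97be0_al

open Function Multiplicative

/-- Extension of a centralizer. -/
theorem exists_cext {G : Type} [Group G] (kG : K G) {h : G} (hh : h ≠ 1) :
    ∃ (P : Type) (_ : Group P) (iA : G →* P)
      (iB : Subgroup.centralizer ({h} : Set G) × Multiplicative ℤ →* P) (M : Am P),
      Injective iA ∧ Injective iB ∧ (∀ c : Subgroup.centralizer ({h} : Set G),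
        iA c = iB (c, 1)) ∧ M.S false = iA.range ∧
      M.S true = iB.range ∧ (∀ x, x ∈ M.C ↔ ∃ c, iB (c, 1) = x) ∧ NF M ∧ M.Gam = ⊤ ∧
      M.Maln ∧ K P := by
  obtain ⟨P, _, iA, iB, M, h1, h2, h3, h4, h5, h6, h7, h8, h9, h10⟩ :=
    exists_amalgam_K (Subgroup.centralizer ({h} : Set G)).subtype
      (MonoidHom.inl (Subgroup.centralizer ({h} : Set G)) (Multiplicative ℤ))
      (Subgroup.subtype_injective _) (fun x y e => congrArg Prod.fst e) kG
      (K.prod_comm (cent_comm kG hh) (fun x y => Commute.all x y) (kG.subgroup _) K_int) (by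
        rintro c hc x ⟨c', hc'⟩
        refine ⟨⟨x, mem_cent.2 (kG.maln hh (mem_cent.1 c.2) (fun e => hc (Subtype.ext e)) ?_)⟩, rfl⟩
        have := mem_cent.1 c'.2
        rw [show (c' : G) = _ from hc'] at this
        exact this)
  refine ⟨P, inferInstance, iA, iB, M, h1, h2, h3, h4, h5, ?_, h7, h8, h9, h10⟩
  intro x
  rw [h6]
  constructor
  · rintro ⟨c, rfl⟩; exact ⟨c, (h3 c).symm⟩
  · rintro ⟨c, rfl⟩; exact ⟨c, h3 c⟩

theorem pre_step {G : Type} [Group G] (kG : K G) {h a : G} (hh : h ≠ 1) (ha : ¬Commute h a) :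
    ∃ (G' : Type) (_ : Group G') (f : G →* G'), Injective f ∧ K G' ∧
      ∃ r : G', Commute (f h) r ∧ ¬Commute (f h) (f a * r * f a * r⁻¹ * f a) ∧
        ∀ e e', Commute (f h) e → Commute (f h) e' →
          e * f a * e' ≠ f a * r * f a * r⁻¹ * f a ∧
          e * (f a)⁻¹ * e' ≠ f a * r * f a * r⁻¹ * f a := by
  obtain ⟨P, _, iA, iB, M, h1, h2, h3, h4, h5, h6, h7, h8, h9, h10⟩ := exists_cext kG hh
  have eh : iA h = iB (⟨h, mem_cent.2 (Commute.refl h)⟩, 1) := h3 ⟨h, _⟩
  have hS : ∀ e, Commute (iA h) e → e ∈ M.S true := by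
    intro e he
    have hm : iA h ∈ M.S true := by rw [h5, eh]; exact ⟨_, rfl⟩
    refine maln_true h7 h8 h9 hm (fun e => hh (h1 (by simpa using e))) ?_
    rwa [mul_assoc, he.eq, inv_mul_cancel_left]
  have wa : W M 1 false true (iA a) := by
    refine W.single (by rw [h4]; exact ⟨_, rfl⟩) ?_
    rw [h6]
    rintro ⟨c, hc⟩
    rw [← h3] at hc
    exact ha (h1 hc ▸ mem_cent.1 c.2)
  have wa' : W M 1 false true (iA a)⁻¹ := wa.inv
  have wr : W M 1 true false (iB (1, ofAdd 1)) := by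
    refine W.single (by rw [h5]; exact ⟨_, rfl⟩) ?_
    rw [h6]
    rintro ⟨c, hc⟩
    have := congrArg (fun x => toAdd x.2) (h2 hc)
    simp at this
  have wb := (((wa.mul wr).mul wa).mul wr.inv).mul wa
  have key : ∀ x e e', W M 1 false true x → e ∈ M.S true → e' ∈ M.S true →
      e * x * e' ≠ iA a * iB (1, ofAdd 1) * iA a * (iB (1, ofAdd 1))⁻¹ * iA a := by
    intro x e e' hx he he' eq
    rw [← eq] at wb
    rcases W.of_mem_S he with w1 | w1 <;> rcases W.of_mem_S he' with w2 | w2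
    · have := W.len_unique h7 wb ((hx.C_mul w1.2).mul w2); omega
    · have := W.len_unique h7 wb ((hx.C_mul w1.2).mul w2); omega
    · have := W.len_unique h7 wb ((w1.mul hx).mul w2); omega
    · have := W.len_unique h7 wb ((w1.mul hx).mul w2); omega
  refine ⟨P, inferInstance, iA, h1, h10, iB (1, ofAdd 1), ?_, ?_, ?_⟩
  · rw [eh]
    apply Commute.map
    exact Prod.ext (by simp) (by simp)
  · intro hc
    have := W.len_le_one h7 wb (hS _ hc)
    omega
  · intro e e' he he'
    exact ⟨key _ _ _ wa (hS e he) (hS e' he'), key _ _ _ wa' (hS e he) (hS e' he')⟩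

/-- The involution on the four letters. -/
def bar4 (σ : Bool × Bool) : Bool × Bool := (σ.1, !σ.2)

/-- First letters. -/
def f4 {G : Type*} [Group G] (a b : G) : Bool × Bool → G
  | (false, false) => a
  | (false, true) => a⁻¹
  | (true, false) => b
  | (true, true) => b⁻¹

/-- Middle letters. -/
def y4 {G : Type*} [Group G] (a y : G) : Bool × Bool → G
  | (false, false) => a
  | (false, true) => a⁻¹
  | (true, false) => y⁻¹
  | (true, true) => y

/-- Markers. -/
def k4 : Bool × Bool → ℤ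
  | (false, false) => 1
  | (false, true) => 2
  | (true, false) => 4
  | (true, true) => 3

/-- Exponents for the second factor. -/
def u4 : Bool × Bool → ℤ
  | (false, _) => 0
  | (true, _) => 1

/-- Exponents for the second factor. -/
def v4 : Bool × Bool → ℤ
  | (false, false) => 1
  | (false, true) => -1
  | (true, false) => -1
  | (true, true) => 1

theorem f4_sep {G : Type*} [Group G] (kG : K G) {h a b : G} (hh : h ≠ 1) (ha : ¬Commute h a)
    (hb : ¬Commute h b)
    (hab : ∀ e e', Commute h e → Commute h e' → e * a * e' ≠ b ∧ e * a⁻¹ * e' ≠ b)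
    (σ σ' : Bool × Bool) {c : G} (hc : Commute h c)
    (hx : Commute h ((f4 a b σ)⁻¹ * c * f4 a b σ')) : σ' = σ ∧ c = 1 := by
  have same : ∀ x : G, ¬Commute h x → Commute h (x⁻¹ * c * x) → c = 1 := by
    intro x hx hx'
    by_contra hc1
    exact hx (kG.maln hh hc hc1 hx')
  have opp : ∀ x : G, ¬Commute h x → ¬Commute h (x * c * x) := fun x hx hx' =>
    hx (kG.aea hc hx')
  have ha' : ¬Commute h a⁻¹ := fun e => ha (by simpa using e)
  have hb' : ¬Commute h b⁻¹ := fun e => hb (by simpa using e)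
  rcases σ with ⟨_ | _, _ | _⟩ <;> rcases σ' with ⟨_ | _, _ | _⟩ <;>
    simp only [f4, inv_inv] at hx
  · exact ⟨rfl, same _ ha hx⟩
  · exact absurd hx (opp _ ha')
  · exact absurd (by group) (hab _ _ hc.inv_right hx).1
  · exact absurd (by group) (hab _ _ hx.inv_right hc).2
  · exact absurd hx (opp _ ha)
  · exact ⟨rfl, same _ ha' (by simpa using hx)⟩
  · exact absurd (by group) (hab _ _ hc.inv_right hx).2
  · exact absurd (by group) (hab _ _ hx.inv_right hc).1
  · exact absurd (by group) (hab _ _ hc hx.inv_right).1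
  · exact absurd (by group) (hab _ _ hc hx.inv_right).2
  · exact ⟨rfl, same _ hb hx⟩
  · exact absurd hx (opp _ hb')
  · exact absurd (by group) (hab _ _ hx hc.inv_right).2
  · exact absurd (by group) (hab _ _ hx hc.inv_right).1
  · exact absurd hx (opp _ hb)
  · exact ⟨rfl, same _ hb' (by simpa using hx)⟩

theorem main_step {G : Type} [Group G] (kG : K G) {h a b y : G} (hh : h ≠ 1)
    (ha : ¬Commute h a) (hb : ¬Commute h b) (hy : ¬Commute h y)
    (hab : ∀ e e', Commute h e → Commute h e' → e * a * e' ≠ b ∧ e * a⁻¹ * e' ≠ b) :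
    ∃ (G' : Type) (_ : Group G') (f : G →* G'), Injective f ∧ K G' ∧
      ∃ s t : G', Commute (f h) s ∧ Commute (f h) t ∧
        f y = t⁻¹ ^ 3 * f b * s * (f a * t * f a * t⁻¹ ^ 2 * f a) * s⁻¹ * f b * t ^ 4 := by
  obtain ⟨G1, _, iA, iB, M, h1, h2, h3, h4, h5, h6, h7, h8, h9, h10⟩ := exists_cext kG hh
  let H := Subgroup.centralizer ({h} : Set G)
  have cE : ∀ x y : H × Multiplicative ℤ, Commute x y := fun x y =>
    Prod.ext (cent_comm kG hh _ _).eq (Commute.all _ _).eq
  have kE : K (H × Multiplicative ℤ) :=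
    K.prod_comm (cent_comm kG hh) (fun x y => Commute.all x y) (kG.subgroup _) K_int
  have kE2 : K ((H × Multiplicative ℤ) × Multiplicative ℤ) :=
    K.prod_comm cE (fun x y => Commute.all x y) kE K_int
  obtain ⟨D, _, iA2, iB2, M2, a2, b2, s2, t2, c2, n2, g2, m2, k2⟩ := exists_free_K kE2
  let F1 : Bool × Bool → G1 := fun σ => iA (f4 a b σ)
  let t1 : Bool × Bool → G1 := fun σ => iB (1, ofAdd (k4 σ))
  let y1 : Bool × Bool → G1 := fun σ => iA (y4 a y σ)
  let t3 : Bool × Bool → G1 := fun σ => iB (1, ofAdd (-k4 (bar4 σ)))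
  let F2 : Bool × Bool → D := fun σ => iB2 (1, ofAdd (u4 σ)) * iA2 (ofAdd (v4 σ))
  let core2 : Bool × Bool → D := fun σ => iB2 (1, ofAdd (v4 σ))
  let ψ : H × Multiplicative ℤ →* G1 × D := iB.prod (iB2.comp (MonoidHom.inl _ _))
  have eψ : ∀ e, ψ e = (iB e, iB2 (e, 1)) := fun e => rfl
  have bb : ∀ σ, bar4 (bar4 σ) = σ := fun σ => by simp [bar4]
  have inv1 : ∀ n : ℤ, (iB (1, ofAdd n))⁻¹ = iB (1, ofAdd (-n)) := fun n => by
    rw [← map_inv]; simp
  have inv2 : ∀ n : ℤ, (iB2 (1, ofAdd n))⁻¹ = iB2 (1, ofAdd (-n)) := fun n => by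
    rw [← map_inv]; simp
  let T : ChData (G1 × D) (Bool × Bool) :=
    { Kk := ψ.range
      c := fun σ => (F1 σ * (t1 σ * y1 σ * t3 σ) * (F1 (bar4 σ))⁻¹,
        F2 σ * core2 σ * (F2 (bar4 σ))⁻¹)
      bar := bar4
      bar_bar := bb
      bar_ne := fun σ => by simp [bar4, Prod.ext_iff]
      c_bar := fun σ => by
        have e1 : t1 (bar4 σ) = (t3 σ)⁻¹ := by simp only [t1, t3, inv1, neg_neg]
        have e2 : t3 (bar4 σ) = (t1 σ)⁻¹ := by simp only [t1, t3, inv1, bb]
        have e3 : y1 (bar4 σ) = (y1 σ)⁻¹ := by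
          rcases σ with ⟨_ | _, _ | _⟩ <;> simp [y1, y4, bar4]
        have e4 : core2 (bar4 σ) = (core2 σ)⁻¹ := by
          simp only [core2, inv2]
          rcases σ with ⟨_ | _, _ | _⟩ <;> simp [v4, bar4]
        refine Prod.ext ?_ ?_
        · simp only [bb, e1, e2, e3, Prod.fst_inv]; group
        · simp only [bb, e4, Prod.snd_inv]; group }
  have memC : ∀ x : G, iA x ∈ M.C → Commute h x := by
    intro x hx
    obtain ⟨c, hc⟩ := (h6 _).1 hx
    rw [← h3] at hc
    exact h1 hc ▸ mem_cent.1 c.2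
  have wA : ∀ x : G, ¬Commute h x → W M 1 false true (iA x) := fun x hx =>
    W.single (by rw [h4]; exact ⟨_, rfl⟩) (fun e => hx (memC x e))
  have wB : ∀ n : ℤ, n ≠ 0 → W M 1 true false (iB (1, ofAdd n)) := by
    intro n hn
    refine W.single (by rw [h5]; exact ⟨_, rfl⟩) ?_
    rw [h6]
    rintro ⟨c, hc⟩
    have := congrArg (fun x => toAdd x.2) (h2 hc)
    exact hn (by simpa using this.symm)
  have ha' : ¬Commute h a⁻¹ := fun e => ha (by simpa using e)
  have hb' : ¬Commute h b⁻¹ := fun e => hb (by simpa using e)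
  have hy' : ¬Commute h y⁻¹ := fun e => hy (by simpa using e)
  have hf : ∀ σ, ¬Commute h (f4 a b σ) := fun σ => by
    rcases σ with ⟨_ | _, _ | _⟩ <;> simp only [f4] <;> assumption
  have hy4 : ∀ σ, ¬Commute h (y4 a y σ) := fun σ => by
    rcases σ with ⟨_ | _, _ | _⟩ <;> simp only [y4] <;> assumption
  have kpos : ∀ σ, 0 < k4 σ := fun σ => by rcases σ with ⟨_ | _, _ | _⟩ <;> simp [k4]
  have w1 : ∀ σ, W M 1 true false (t1 σ) := fun σ => wB _ (kpos σ).ne'
  have w3 : ∀ σ, W M 1 true false (t3 σ) := fun σ => wB _ (by have := kpos (bar4 σ); omega)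
  have B1 : Marked T M (MonoidHom.fst G1 D) F1 (fun σ => t1 σ * y1 σ * t3 σ) t1 y1 t3 :=
    { nf := h7
      hc := fun σ => rfl
      wcore := fun σ => ⟨_, ((w1 σ).mul (wA _ (hy4 σ))).mul (w3 σ)⟩
      wjunc := by
        rintro σ σ' _ ⟨e, rfl⟩ hadm
        change ∃ l, (l = 0 ∨ l = 2) ∧
          W M (l + 1) false true ((iA (f4 a b (bar4 σ)))⁻¹ * iB e * iA (f4 a b σ'))
        by_cases hC : iB e ∈ M.C
        · obtain ⟨c, hc⟩ := (h6 _).1 hC
          refine ⟨0, Or.inl rfl, ?_⟩
          rw [← hc, ← h3, ← map_inv, ← map_mul, ← map_mul]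
          refine wA _ (fun hx => hadm ?_)
          obtain ⟨e1, e2⟩ := f4_sep kG hh ha hb hab _ _ (mem_cent.1 c.2) hx
          refine ⟨e1, ?_⟩
          have : c = 1 := Subtype.ext e2
          rw [← h2 hc, this]
          exact map_one ψ
        · refine ⟨2, Or.inr rfl, ?_⟩
          exact ((wA _ (hf _)).inv.mul (W.single (i := true) (by rw [h5]; exact ⟨_, rfl⟩) hC)).mul
            (wA _ (hf _))
      injK := by
        rintro _ ⟨e, rfl⟩ he
        have : e = 1 := h2 (by rw [map_one]; exact he)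
        rw [this, map_one]
      top := h8
      maln := h9
      hcore := fun σ => rfl
      w1 := w1
      ymem := fun σ => by rw [h4]; exact ⟨_, rfl⟩
      ynot := fun σ e => hy4 σ (memC _ e)
      w3 := w3
      ha := by
        intro σ τ c hc c' hc' e
        obtain ⟨c, rfl⟩ := (h6 _).1 hc
        obtain ⟨c', rfl⟩ := (h6 _).1 hc'
        simp only [t1, ← map_mul] at e
        have e' := h2 e
        have e1 : c' = c := by simpa using congrArg Prod.fst e'
        have e2 : k4 σ = k4 τ := by simpa using congrArg (fun x => toAdd x.2) e'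
        refine ⟨?_, by rw [e1]⟩
        rcases σ with ⟨_ | _, _ | _⟩ <;> rcases τ with ⟨_ | _, _ | _⟩ <;> simp [k4] at e2 ⊢
      hb := by
        intro σ τ c hc c' hc' e
        obtain ⟨c, rfl⟩ := (h6 _).1 hc
        obtain ⟨c', rfl⟩ := (h6 _).1 hc'
        simp only [t1, t3, ← map_mul] at e
        have e' := h2 e
        have e2 : -k4 (bar4 σ) = k4 τ := by simpa using congrArg (fun x => toAdd x.2) e'
        have := kpos (bar4 σ)
        have := kpos τ
        omega
      Kmem := by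
        rintro _ ⟨e, rfl⟩
        rw [h5]; exact ⟨e, rfl⟩
      Ksurj := by
        intro x hx
        rw [h5] at hx
        obtain ⟨e, rfl⟩ := hx
        exact ⟨ψ e, ⟨e, rfl⟩, rfl⟩ }
  have wA2 : ∀ n : ℤ, n ≠ 0 → W M2 1 false true (iA2 (ofAdd n)) := by
    intro n hn
    refine W.single (by rw [s2]; exact ⟨_, rfl⟩) ?_
    rw [c2, Subgroup.mem_bot, ← iA2.map_one]
    intro e
    exact hn (by simpa using congrArg toAdd (a2 e))
  have wB2 : ∀ e, e ≠ 1 → W M2 1 true false (iB2 e) := by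
    intro e he
    refine W.single (by rw [t2]; exact ⟨_, rfl⟩) ?_
    rw [c2, Subgroup.mem_bot, ← iB2.map_one]
    exact fun e' => he (b2 e')
  have vne : ∀ σ, v4 σ ≠ 0 := fun σ => by rcases σ with ⟨_ | _, _ | _⟩ <;> simp [v4]
  have B2 : Block T M2 (MonoidHom.snd G1 D) F2 core2 :=
    { nf := n2
      hc := fun σ => rfl
      wcore := fun σ => ⟨_, wB2 _ (fun e => vne σ (by simpa using congrArg (fun x => toAdd x.2) e))⟩
      wjunc := by
        rintro σ σ' _ ⟨e, rfl⟩ hadm
        have eJ : (F2 (T.bar σ))⁻¹ * (MonoidHom.snd G1 D) (ψ e) * F2 σ' =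
            (iA2 (ofAdd (v4 (bar4 σ))))⁻¹ * iB2 (e, ofAdd (u4 σ' - u4 (bar4 σ))) *
              iA2 (ofAdd (v4 σ')) := by
          have : iB2 (e, ofAdd (u4 σ' - u4 (bar4 σ))) =
              (iB2 (1, ofAdd (u4 (bar4 σ))))⁻¹ * iB2 (e, 1) * iB2 (1, ofAdd (u4 σ')) := by
            rw [inv2, ← map_mul, ← map_mul]
            congr 1
            refine Prod.ext (by simp) ?_
            simp only [Prod.snd_mul, mul_one, ← ofAdd_add]
            congr 1
            ring
          rw [this]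
          change (iB2 (1, ofAdd (u4 (bar4 σ))) * iA2 (ofAdd (v4 (bar4 σ))))⁻¹ * iB2 (e, 1) *
            (iB2 (1, ofAdd (u4 σ')) * iA2 (ofAdd (v4 σ'))) = _
          group
        rw [eJ]
        by_cases hC : ((e, ofAdd (u4 σ' - u4 (bar4 σ))) :
            (H × Multiplicative ℤ) × Multiplicative ℤ) = 1
        · refine ⟨0, Or.inl rfl, ?_⟩
          rw [hC, map_one, mul_one, ← map_inv, ← map_mul, ← ofAdd_neg, ← ofAdd_add]
          refine wA2 _ (fun hv => hadm ⟨?_, ?_⟩)
          · have hu : u4 σ' - u4 (bar4 σ) = 0 := by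
              simpa using congrArg (fun x => toAdd x.2) hC
            change σ' = bar4 σ
            generalize bar4 σ = ρ at hu hv
            rcases σ' with ⟨_ | _, _ | _⟩ <;> rcases ρ with ⟨_ | _, _ | _⟩ <;>
              simp [u4, v4] at hu hv ⊢
          · have : e = 1 := congrArg Prod.fst hC
            rw [this, map_one]
        · exact ⟨2, Or.inr rfl, ((wA2 _ (vne _)).inv.mul (wB2 _ hC)).mul (wA2 _ (vne _))⟩
      injK := by
        rintro _ ⟨e, rfl⟩ he
        have : ((e, 1) : (H × Multiplicative ℤ) × Multiplicative ℤ) = 1 :=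
          b2 (by rw [map_one]; exact he)
        have : e = 1 := congrArg Prod.fst this
        rw [this, map_one] }
  obtain ⟨P, _, jA, jB, inj, hj, kP⟩ := exists_glue h10 k2 T.Gam
    (fun g hg e => B1.toBlock.inj hg e) (fun g hg e => B2.inj hg e)
    (fun c hc hc1 c' hc' x e => B1.malnormal hc hc1 hc' e)
  have eh : iA h = iB (⟨h, mem_cent.2 (Commute.refl h)⟩, 1) := h3 ⟨h, _⟩
  refine ⟨P, inferInstance, jA.comp iA, inj.comp h1, kP, jB (iB2 (1, ofAdd 1)),
    jA (iB (1, ofAdd 1)), ?_, ?_, ?_⟩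
  · have := hj _ (ChData.K_le (T := T) ⟨(⟨h, mem_cent.2 (Commute.refl h)⟩, 1), rfl⟩)
    rw [eψ] at this
    rw [MonoidHom.comp_apply, eh, this]
    apply Commute.map
    apply Commute.map
    exact Prod.ext (by simp) (by simp)
  · rw [MonoidHom.comp_apply, eh]
    apply Commute.map
    apply Commute.map
    exact cE _ _
  · have u0 := hj _ (ChData.c_mem (T := T) (false, false))
    have u1 := hj _ (ChData.c_mem (T := T) (true, false))
    have pw : ∀ n : ℤ, iB (1, ofAdd n) = iB (1, ofAdd 1) ^ n := fun n => by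
      rw [← map_zpow]; congr 1; simp [← ofAdd_zsmul]
    have pw2 : ∀ n : ℤ, iB2 (1, ofAdd n) = iB2 (1, ofAdd 1) ^ n := fun n => by
      rw [← map_zpow]; congr 1; simp [← ofAdd_zsmul]
    have pw3 : ∀ n : ℤ, iA2 (ofAdd n) = iA2 (ofAdd 1) ^ n := fun n => by
      rw [← map_zpow]; congr 1; simp [← ofAdd_zsmul]
    change jA (iA a * (iB (1, ofAdd 1) * iA a * iB (1, ofAdd (-2))) * (iA a⁻¹)⁻¹) =
      jB (iB2 (1, ofAdd 0) * iA2 (ofAdd 1) * iB2 (1, ofAdd 1) *
        (iB2 (1, ofAdd 0) * iA2 (ofAdd (-1)))⁻¹) at u0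
    change jA (iA b * (iB (1, ofAdd 4) * iA y⁻¹ * iB (1, ofAdd (-3))) * (iA b⁻¹)⁻¹) =
      jB (iB2 (1, ofAdd 1) * iA2 (ofAdd (-1)) * iB2 (1, ofAdd (-1)) *
        (iB2 (1, ofAdd 1) * iA2 (ofAdd 1))⁻¹) at u1
    rw [pw (-2), pw2 0, pw3 (-1)] at u0
    rw [pw 4, pw (-3), pw2 (-1), pw3 (-1)] at u1
    simp only [map_mul, map_inv, map_zpow, MonoidHom.comp_apply] at u0 u1 ⊢
    generalize jA (iA a) = A at *
    generalize jA (iA b) = B at *
    generalize jA (iA y) = Y at *
    generalize jA (iB (1, ofAdd 1)) = t at *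
    generalize jB (iB2 (1, ofAdd 1)) = s at *
    generalize jB (iA2 (ofAdd 1)) = α at *
    have e1 : A * t * A * t⁻¹ ^ 2 * A = α * s * α := by
      have : A * t * A * t⁻¹ ^ 2 * A = A * (t * A * t ^ (-2 : ℤ)) * A⁻¹⁻¹ := by group
      rw [this, u0]; group
    have e2 : Y = t ^ (-3 : ℤ) * B * (B * (t ^ (4 : ℤ) * Y⁻¹ * t ^ (-3 : ℤ)) * B⁻¹⁻¹)⁻¹ * B *
        t ^ (4 : ℤ) := by group
    rw [e1, e2, u1]
    group

end Pool.Agent.Lib.MP_e97be0_al
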