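import Pool.Agent.Lib.MP_e97be0_al.Limit

/-!
Consequences in the limit group.
-/

namespace Pool.Agent.Lib.MP_e97be0_al

variable {G : Type*} [Group G]

theorem two_factors (kG : K G) {h a : G} (ha : ¬Commute h a) (x : G) :
    ∃ y1 y2, ¬Commute h y1 ∧ ¬Commute h y2 ∧ x = y1 * y2 := by
  by_cases h1 : Commute h (a⁻¹ * x)
  · refine ⟨a * a, (a * a)⁻¹ * x, fun e => ha (kG.aea (Commute.one_right h) (by simpa using e)),
      fun e => ha ?_, by group⟩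
    have : a = (a⁻¹ * x) * ((a * a)⁻¹ * x)⁻¹ := by group
    rw [this]
    exact h1.mul_right e.inv_right
  · exact ⟨a, a⁻¹ * x, ha, h1, by group⟩

theorem max_ab (kG : K G) (hne : ∃ a b : G, ¬Commute a b) {H : Subgroup G}
    (hH : Maximal (fun L : Subgroup G => ∀ x ∈ L, ∀ y ∈ L, x * y = y * x) H) :
    ∃ h : G, h ≠ 1 ∧ ∀ g, g ∈ H ↔ Commute h g := by
  have hc : ∀ h : G, h ≠ 1 → ∀ x ∈ Subgroup.centralizer ({h} : Set G),
      ∀ y ∈ Subgroup.centralizer ({h} : Set G), x * y = y * x :=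
    fun h hh x hx y hy => (kG.ct h x y hh (mem_cent.1 hx) (mem_cent.1 hy)).eq
  have : ∃ h ∈ H, h ≠ 1 := by
    by_contra hno
    push Not at hno
    obtain ⟨a, b, hab⟩ := hne
    have ha : a ≠ 1 := fun e => hab (by rw [e]; exact Commute.one_left b)
    have h1 : H ≤ Subgroup.centralizer ({a} : Set G) := fun x hx => by
      rw [hno x hx]; exact Subgroup.one_mem _
    exact ha (hno a (hH.2 (hc a ha) h1 (mem_cent.2 (Commute.refl a))))
  obtain ⟨h, hh, hh1⟩ := this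
  have h1 : H ≤ Subgroup.centralizer ({h} : Set G) := fun x hx => mem_cent.2 (hH.1 h hh x hx)
  exact ⟨h, hh1, fun g => ⟨fun hg => mem_cent.1 (h1 hg),
    fun hg => hH.2 (hc h hh1) h1 (mem_cent.2 hg)⟩⟩

/-- `x` is a product of `n` elements with property `p`. -/
def ProdOf (p : G → Prop) (n : ℕ) (x : G) : Prop :=
  ∃ l : List G, l.length = n ∧ (∀ z ∈ l, p z) ∧ l.prod = x

theorem ProdOf.mul {p : G → Prop} {n m : ℕ} {x y : G} (hx : ProdOf p n x) (hy : ProdOf p m y) :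
    ProdOf p (n + m) (x * y) := by
  obtain ⟨l, rfl, h1, rfl⟩ := hx
  obtain ⟨l', rfl, h2, rfl⟩ := hy
  refine ⟨l ++ l', by simp, ?_, by simp⟩
  intro z hz
  rcases List.mem_append.1 hz with hz | hz
  · exact h1 z hz
  · exact h2 z hz

theorem ProdOf.one {p : G → Prop} {x : G} (hx : p x) : ProdOf p 1 x :=
  ⟨[x], rfl, by simpa using hx, by simp⟩

theorem ProdOf.fn {p : G → Prop} {n : ℕ} {x : G} (hx : ProdOf p n x) :
    ∃ f : Fin n → G, (∀ i, p (f i)) ∧ (List.ofFn f).prod = x := by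
  obtain ⟨l, rfl, h1, rfl⟩ := hx
  exact ⟨l.get, fun i => h1 _ (List.get_mem l i), by simp⟩

theorem word_conj {a r s t : G} (hst : Commute s t) : ProdOf (IsConj a) 9 (word a r s t) := by
  have c : ∀ p : G, ProdOf (IsConj a) 1 (p * a * p⁻¹) := fun p =>
    ProdOf.one (isConj_iff.2 ⟨p, rfl⟩)
  have := ((((((((c (t⁻¹ ^ 3)).mul (c (t⁻¹ ^ 3 * r))).mul (c (t⁻¹ ^ 3))).mul
    (c (t⁻¹ ^ 3 * s))).mul (c (t⁻¹ ^ 3 * s * t))).mul (c (t⁻¹ ^ 3 * s * t⁻¹))).mul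
    (c (t⁻¹ ^ 3 * s * t⁻¹ * s⁻¹))).mul (c (t⁻¹ ^ 3 * s * t⁻¹ * s⁻¹ * r))).mul
    (c (t⁻¹ ^ 3 * s * t⁻¹ * s⁻¹))
  have e : (t⁻¹ ^ 3 * s * t⁻¹ * s⁻¹)⁻¹ = t ^ 4 := by
    have : t⁻¹ ^ 3 * s * t⁻¹ * s⁻¹ = t⁻¹ ^ 3 * (s * t⁻¹) * s⁻¹ := by group
    rw [this, hst.inv_right.eq]
    group
  convert this using 1
  rw [word, ← e]
  group

theorem word_coset {h a e r s t : G} (he : Commute h e) (hr : Commute h r) (hs : Commute h s)
    (ht : Commute h t) :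
    ∃ z e', ProdOf (fun x => Commute h (a⁻¹ * x)) 9 z ∧ Commute h e' ∧
      a * e * word a r s t = z * (a * e') := by
  have c : ∀ p : G, Commute h p → ProdOf (fun x => Commute h (a⁻¹ * x)) 1 (a * p) := fun p hp =>
    ProdOf.one (by simpa using hp)
  have := ((((((((c _ (he.mul_right (ht.inv_right.pow_right 3))).mul (c _ hr)).mul
    (c _ hr.inv_right)).mul (c _ hs)).mul (c _ ht)).mul (c _ (ht.inv_right.pow_right 2))).mul
    (c _ hs.inv_right)).mul (c _ hr)).mul (c _ hr.inv_right)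
  refine ⟨_, t ^ 4, this, ht.pow_right 4, ?_⟩
  rw [word]
  group

theorem conj_cover (kG : K G) (hne : ∃ a b : G, ¬Commute a b)
    (hS : ∀ x, Sat (MonoidHom.id G) x) {g : G} (hg : g ≠ 1) (x : G) :
    ProdOf (IsConj g) 18 x := by
  obtain ⟨h, hh⟩ : ∃ h, ¬Commute h g := by
    by_contra hno
    push Not at hno
    obtain ⟨a, b, hab⟩ := hne
    exact hab (kG.ct g a b hg (hno a).symm (hno b).symm)
  have hh1 : h ≠ 1 := fun e => hh (by rw [e]; exact Commute.one_left g)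
  obtain ⟨y1, y2, h1, h2, rfl⟩ := two_factors kG hh x
  obtain ⟨r, s, t, -, hs, ht, e⟩ := (hS (h, g, y1)).2 hh1 hh h1
  obtain ⟨r', s', t', -, hs', ht', e'⟩ := (hS (h, g, y2)).2 hh1 hh h2
  simp only [MonoidHom.id_apply] at hs ht e hs' ht' e'
  rw [e, e']
  exact (word_conj (kG.ct h _ _ hh1 hs ht)).mul (word_conj (kG.ct h _ _ hh1 hs' ht'))

theorem coset_cover (kG : K G) (hS : ∀ x, Sat (MonoidHom.id G) x) {h a : G} (hh1 : h ≠ 1)
    (hh : ¬Commute h a) (x : G) : ProdOf (fun x => Commute h (a⁻¹ * x)) 19 x := by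
  obtain ⟨y1, y2, h1, h2, ex⟩ := two_factors kG hh (a⁻¹ * x)
  obtain ⟨r, s, t, hr, hs, ht, e⟩ := (hS (h, a, y1)).2 hh1 hh h1
  obtain ⟨r', s', t', hr', hs', ht', e'⟩ := (hS (h, a, y2)).2 hh1 hh h2
  simp only [MonoidHom.id_apply] at hr hs ht e hr' hs' ht' e'
  obtain ⟨z1, e1, p1, c1, q1⟩ := word_coset (a := a) (Commute.one_right h) hr hs ht
  obtain ⟨z2, e2, p2, c2, q2⟩ := word_coset (a := a) c1 hr' hs' ht'
  have : x = z1 * z2 * (a * e2) := by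
    rw [mul_assoc, ← q2, ← mul_assoc, ← q1, ← e, ← e', mul_one, mul_assoc, ← ex]
    group
  rw [this]
  exact (p1.mul p2).mul (ProdOf.one (by simpa using c2))

end Pool.Agent.Lib.MP_e97be0_al
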