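import Pool.Agent.Lib.MP_e97be0_al.Cover

/-!
Ultraproducts and the limit group.
-/

namespace Pool.Agent.Lib.MP_e97be0_al

open Function Filter

/-- The word expressing an element through `a` and elements of a centralizer. -/
def word {G : Type*} [Group G] (a r s t : G) : G :=
  t⁻¹ ^ 3 * (a * r * a * r⁻¹ * a) * s * (a * t * a * t⁻¹ ^ 2 * a) * s⁻¹ *
    (a * r * a * r⁻¹ * a) * t ^ 4

theorem map_word {G H : Type*} [Group G] [Group H] (f : G →* H) (a r s t : G) :
    f (word a r s t) = word (f a) (f r) (f s) (f t) := by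
  simp [word]

/-- The requirement attached to a triple. -/
def Sat {G G' : Type*} [Group G] [Group G'] (f : G →* G') (x : G × G × G) : Prop :=
  (x.1 ≠ 1 → x.2.1 ≠ 1 → ∃ t, Commute (f x.1) (t⁻¹ * f x.2.1 * t)) ∧
  (x.1 ≠ 1 → ¬Commute x.1 x.2.1 → ¬Commute x.1 x.2.2 → ∃ r s t, Commute (f x.1) r ∧
    Commute (f x.1) s ∧ Commute (f x.1) t ∧ f x.2.2 = word (f x.2.1) r s t)

theorem Sat.comp {G G' G'' : Type*} [Group G] [Group G'] [Group G''] {f : G →* G'}
    (g : G' →* G'') {x : G × G × G} (h : Sat f x) : Sat (g.comp f) x := by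
  refine ⟨fun h1 h2 => ?_, fun h1 h2 h3 => ?_⟩
  · obtain ⟨t, ht⟩ := h.1 h1 h2
    exact ⟨g t, by simpa using ht.map g⟩
  · obtain ⟨r, s, t, a, b, c, d⟩ := h.2 h1 h2 h3
    refine ⟨g r, g s, g t, a.map g, b.map g, c.map g, ?_⟩
    rw [MonoidHom.comp_apply, d, map_word]; rfl

theorem Sat.of_inj {G G' G'' : Type*} [Group G] [Group G'] [Group G''] {f : G →* G'}
    (hf : Injective f) {g : G' →* G''} {x : G × G × G} (h : Sat g (f x.1, f x.2.1, f x.2.2)) :
    Sat (g.comp f) x := by
  have ne : ∀ z : G, z ≠ 1 → f z ≠ 1 := fun z hz e => hz (hf (by simpa using e))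
  exact ⟨fun h1 h2 => h.1 (ne _ h1) (ne _ h2), fun h1 h2 h3 => h.2 (ne _ h1)
    (fun e => h2 (commute_of_inj f hf e)) (fun e => h3 (commute_of_inj f hf e))⟩

theorem cover_step {G : Type} [Group G] (kG : K G) {h a y : G} (hh : h ≠ 1)
    (ha : ¬Commute h a) (hy : ¬Commute h y) :
    ∃ (G' : Type) (_ : Group G') (f : G →* G'), Injective f ∧ K G' ∧
      ∃ r s t, Commute (f h) r ∧ Commute (f h) s ∧ Commute (f h) t ∧
        f y = word (f a) r s t := by
  obtain ⟨G1, _, f1, i1, k1, r, hr, hb, hab⟩ := pre_step kG hh ha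
  obtain ⟨G2, _, f2, i2, k2, s, t, hs, ht, e⟩ := main_step k1 (h := f1 h) (a := f1 a) (y := f1 y)
    (fun e => hh (i1 (by simpa using e))) (fun e => ha (commute_of_inj f1 i1 e)) hb
    (fun e => hy (commute_of_inj f1 i1 e)) hab
  refine ⟨G2, inferInstance, f2.comp f1, i2.comp i1, k2, f2 r, s, t, hr.map f2, hs, ht, ?_⟩
  simpa [word] using e

theorem single_step {G : Type} [Group G] (kG : K G) (x : G × G × G) :
    ∃ (G' : Type) (_ : Group G') (f : G →* G'), Injective f ∧ K G' ∧ Sat f x := by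
  obtain ⟨h, a, y⟩ := x
  by_cases hh : h = 1
  · exact ⟨G, inferInstance, MonoidHom.id G, injective_id, kG, fun e => absurd hh e,
      fun e => absurd hh e⟩
  by_cases ha1 : a = 1
  · refine ⟨G, inferInstance, MonoidHom.id G, injective_id, kG, fun _ e => absurd ha1 e,
      fun _ e => absurd ?_ e⟩
    rw [ha1]; exact Commute.one_right _
  obtain ⟨G1, _, f1, i1, k1, t, ht⟩ := conj_step kG hh ha1
  by_cases hc : ¬Commute h a ∧ ¬Commute h y
  · obtain ⟨G2, _, f2, i2, k2, e⟩ := cover_step k1 (h := f1 h) (a := f1 a) (y := f1 y)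
      (fun e => hh (i1 (by simpa using e))) (fun e => hc.1 (commute_of_inj f1 i1 e))
      (fun e => hc.2 (commute_of_inj f1 i1 e))
    exact ⟨G2, inferInstance, f2.comp f1, i2.comp i1, k2,
      fun _ _ => ⟨f2 t, by simpa using ht.map f2⟩, fun _ _ _ => e⟩
  · exact ⟨G1, inferInstance, f1, i1, k1, fun _ _ => ⟨t, ht⟩,
      fun _ h1 h2 => absurd ⟨h1, h2⟩ hc⟩

theorem finite_step {G : Type} [Group G] (kG : K G) (l : Finset (G × G × G)) :
    ∃ (G' : Type) (_ : Group G') (f : G →* G'), Injective f ∧ K G' ∧ ∀ x ∈ l, Sat f x := by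
  classical
  induction l using Finset.induction_on with
  | empty => exact ⟨G, inferInstance, MonoidHom.id G, injective_id, kG, by simp⟩
  | insert x l _ ih =>
    obtain ⟨G1, _, f1, i1, k1, h1⟩ := ih
    obtain ⟨G2, _, f2, i2, k2, h2⟩ := single_step k1 (f1 x.1, f1 x.2.1, f1 x.2.2)
    refine ⟨G2, inferInstance, f2.comp f1, i2.comp i1, k2, ?_⟩
    intro z hz
    rcases Finset.mem_insert.1 hz with rfl | hz
    · exact h2.of_inj i1
    · exact (h1 z hz).comp f2

theorem exists_ultra {I : Type} (U : Ultrafilter I) (G : I → Type) [∀ i, Group (G i)]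
    (hK : ∀ i, K (G i)) :
    ∃ (Q : Type) (_ : Group Q) (π : (∀ i, G i) →* Q),
      (∀ x y, π x = π y ↔ ∀ᶠ i in U, x i = y i) ∧ K Q := by
  let N : Subgroup (∀ i, G i) :=
    { carrier := {x | ∀ᶠ i in U, x i = 1}
      mul_mem' := fun {x y} hx hy => by
        filter_upwards [hx, hy] with i h1 h2
        simp [h1, h2]
      one_mem' := Eventually.of_forall fun _ => rfl
      inv_mem' := fun {x} hx => by
        filter_upwards [hx] with i h1
        simp [h1] }
  have : N.Normal := ⟨fun x hx g => by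
    filter_upwards [hx] with i h1
    simp [h1]⟩
  have key : ∀ x y : ∀ i, G i, QuotientGroup.mk' N x = QuotientGroup.mk' N y ↔
      ∀ᶠ i in U, x i = y i := by
    intro x y
    rw [QuotientGroup.mk'_apply, QuotientGroup.mk'_apply, QuotientGroup.eq]
    change (∀ᶠ i in U, (x⁻¹ * y) i = 1) ↔ _
    simp [inv_mul_eq_one]
  have kc : ∀ x y : ∀ i, G i, Commute (QuotientGroup.mk' N x) (QuotientGroup.mk' N y) ↔
      ∀ᶠ i in U, Commute (x i) (y i) := by
    intro x y
    rw [Commute, SemiconjBy, ← map_mul, ← map_mul, key]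
    rfl
  have k1 : ∀ x : ∀ i, G i, QuotientGroup.mk' N x ≠ 1 → ∀ᶠ i in U, x i ≠ 1 := by
    intro x hx
    rw [← (QuotientGroup.mk' N).map_one, Ne, key] at hx
    exact Ultrafilter.eventually_not.2 hx
  have sj := QuotientGroup.mk'_surjective N
  refine ⟨(∀ i, G i) ⧸ N, inferInstance, QuotientGroup.mk' N, key, ?_, ?_, ?_⟩
  · intro a x y ha hx hy
    obtain ⟨a, rfl⟩ := sj a
    obtain ⟨x, rfl⟩ := sj x
    obtain ⟨y, rfl⟩ := sj y
    rw [kc] at hx hy ⊢
    filter_upwards [k1 a ha, hx, hy] with i h1 h2 h3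
    exact (hK i).ct _ _ _ h1 h2 h3
  · intro a g ha hg
    obtain ⟨a, rfl⟩ := sj a
    obtain ⟨g, rfl⟩ := sj g
    rw [← map_inv, ← map_mul, ← map_mul] at hg
    rw [kc] at hg ⊢
    filter_upwards [k1 a ha, hg] with i h1 h2
    exact (hK i).mn _ _ h1 h2
  · intro g hg
    obtain ⟨g, rfl⟩ := sj g
    rw [← map_mul, ← (QuotientGroup.mk' N).map_one, key] at hg
    rw [← (QuotientGroup.mk' N).map_one, key]
    filter_upwards [hg] with i h1
    exact (hK i).ni _ h1

theorem plus_step {G : Type} [Group G] (kG : K G) :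
    ∃ (G' : Type) (_ : Group G') (f : G →* G'), Injective f ∧ K G' ∧ ∀ x, Sat f x := by
  classical
  choose F inst f hf hK hS using finite_step kG
  let U : Ultrafilter (Finset (G × G × G)) := Ultrafilter.of atTop
  have hU : (U : Filter (Finset (G × G × G))) ≤ atTop := Ultrafilter.of_le atTop
  obtain ⟨Q, _, π, hπ, kQ⟩ := exists_ultra U F hK
  have kc : ∀ x y : ∀ i, F i, (∀ᶠ i in U, Commute (x i) (y i)) → Commute (π x) (π y) := by
    intro x y h
    rw [Commute, SemiconjBy, ← map_mul, ← map_mul, hπ]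
    exact h
  refine ⟨Q, inferInstance, π.comp (MonoidHom.pi f), ?_, kQ, ?_⟩
  · intro x y e
    obtain ⟨i, hi⟩ := ((hπ _ _).1 e).exists
    exact hf i hi
  · intro x
    have hx : ∀ᶠ l in (U : Filter (Finset (G × G × G))), x ∈ l := hU ((eventually_ge_atTop {x}).mono fun l hl => by simpa using hl)
    refine ⟨fun h1 h2 => ?_, fun h1 h2 h3 => ?_⟩
    · have : ∀ l, ∃ t : F l, x ∈ l → Commute (f l x.1) (t⁻¹ * f l x.2.1 * t) := by
        intro l
        by_cases hl : x ∈ l
        · obtain ⟨t, ht⟩ := (hS l x hl).1 h1 h2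
          exact ⟨t, fun _ => ht⟩
        · exact ⟨1, fun e => absurd e hl⟩
      choose t ht using this
      refine ⟨π t, ?_⟩
      rw [MonoidHom.comp_apply, MonoidHom.comp_apply, ← map_inv, ← map_mul, ← map_mul]
      exact kc _ _ (hx.mono fun l hl => ht l hl)
    · have : ∀ l, ∃ r s t : F l, x ∈ l → (Commute (f l x.1) r ∧ Commute (f l x.1) s ∧
          Commute (f l x.1) t ∧ f l x.2.2 = word (f l x.2.1) r s t) := by
        intro l
        by_cases hl : x ∈ l
        · obtain ⟨r, s, t, ht⟩ := (hS l x hl).2 h1 h2 h3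
          exact ⟨r, s, t, fun _ => ht⟩
        · exact ⟨1, 1, 1, fun e => absurd e hl⟩
      choose r s t ht using this
      refine ⟨π r, π s, π t, kc _ _ (hx.mono fun l hl => (ht l hl).1),
        kc _ _ (hx.mono fun l hl => (ht l hl).2.1),
        kc _ _ (hx.mono fun l hl => (ht l hl).2.2.1), ?_⟩
      rw [MonoidHom.comp_apply, MonoidHom.comp_apply, ← map_word, hπ]
      exact hx.mono fun l hl => (ht l hl).2.2.2

theorem exists_ext (G : ℕ → Type) [∀ n, Group (G n)] (f : ∀ n, G n →* G (n + 1)) (n : ℕ)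
    (g : G n) : ∃ x : ∀ m, G m, x n = g ∧ ∀ m, n ≤ m → x (m + 1) = f m (x m) := by
  let x : ∀ m, G m := fun m => Nat.rec (motive := G) (if h : n = 0 then cast (congrArg G h) g else 1)
    (fun m y => if h : n = m + 1 then cast (congrArg G h) g else f m y) m
  refine ⟨x, ?_, ?_⟩
  · cases n with
    | zero => simp [x]
    | succ n => simp [x]
  · intro m hm
    have : n ≠ m + 1 := by omega
    simp [x, this]

theorem exists_limit (G : ℕ → Type) [∀ n, Group (G n)] (f : ∀ n, G n →* G (n + 1))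
    (hf : ∀ n, Injective (f n)) (hK : ∀ n, K (G n)) :
    ∃ (L : Type) (_ : Group L) (j : ∀ n, G n →* L), K L ∧ (∀ n, Injective (j n)) ∧
      (∀ n g, j (n + 1) (f n g) = j n g) ∧ ∀ q, ∃ n g, j n g = q := by
  let U : Ultrafilter ℕ := Ultrafilter.of atTop
  have hU : (U : Filter ℕ) ≤ atTop := Ultrafilter.of_le atTop
  obtain ⟨Q, _, π, hπ, kQ⟩ := exists_ultra U G hK
  have key : ∀ (n : ℕ) (x y : ∀ m, G m), (∀ m, n ≤ m → x (m + 1) = f m (x m)) →
      (∀ m, n ≤ m → y (m + 1) = f m (y m)) → (π x = π y ↔ x n = y n) := by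
    intro n x y hx hy
    have h1 : ∀ m, n ≤ m → (x m = y m ↔ x n = y n) := by
      intro m hm
      induction m, hm using Nat.le_induction with
      | base => rfl
      | succ m hm ih => rw [hx m hm, hy m hm, (hf m).eq_iff, ih]
    rw [hπ]
    constructor
    · intro h
      obtain ⟨m, h2, h3⟩ := (h.and (hU (eventually_ge_atTop n))).exists
      exact (h1 m h3).1 h2
    · intro h
      exact hU ((eventually_ge_atTop n).mono fun m hm => (h1 m hm).2 h)
  choose ext h0 h1 using exists_ext G f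
  let j : ∀ n, G n →* Q := fun n => MonoidHom.mk' (fun g => π (ext n g)) (by
    intro a b
    rw [← map_mul, key n _ _ (h1 n _) (fun m hm => by simp [h1 n _ m hm])]
    simp [h0])
  have hj : ∀ n g, j (n + 1) (f n g) = j n g := by
    intro n g
    change π _ = π _
    rw [key (n + 1) _ _ (h1 _ _) (fun m hm => h1 n g m (by omega)), h0, h1 n g n le_rfl, h0]
  have mono : ∀ n m, n ≤ m → (j n).range ≤ (j m).range := by
    intro n m hm
    induction m, hm using Nat.le_induction with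
    | base => exact le_rfl
    | succ m hm ih =>
      refine ih.trans ?_
      rintro _ ⟨g, rfl⟩
      exact ⟨f m g, hj m g⟩
  let L : Subgroup Q :=
    { carrier := {q | ∃ n, q ∈ (j n).range}
      mul_mem' := by
        rintro a b ⟨n, ha⟩ ⟨m, hb⟩
        exact ⟨max n m, Subgroup.mul_mem _ (mono _ _ (le_max_left _ _) ha)
          (mono _ _ (le_max_right _ _) hb)⟩
      one_mem' := ⟨0, Subgroup.one_mem _⟩
      inv_mem' := by
        rintro a ⟨n, ha⟩
        exact ⟨n, Subgroup.inv_mem _ ha⟩ }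
  refine ⟨L, inferInstance, fun n => (j n).codRestrict L (fun g => ⟨n, g, rfl⟩), kQ.subgroup L,
    ?_, fun n g => Subtype.ext (hj n g), ?_⟩
  · intro n a b e
    have : π (ext n a) = π (ext n b) := congrArg Subtype.val e
    rwa [key n _ _ (h1 _ _) (h1 _ _), h0, h0] at this
  · rintro ⟨q, n, g, rfl⟩
    exact ⟨n, g, rfl⟩

theorem closed_of_seq (G : ℕ → Type) [∀ n, Group (G n)] (f : ∀ n, G n →* G (n + 1))
    (hf : ∀ n, Injective (f n)) (hK : ∀ n, K (G n)) (hs : ∀ n x, Sat (f n) x)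
    (hne : ∃ a b : G 0, ¬Commute a b) :
    ∃ (L : Type) (_ : Group L), K L ∧ (∃ a b : L, ¬Commute a b) ∧
      ∀ x, Sat (MonoidHom.id L) x := by
  obtain ⟨L, _, j, kL, i1, i2, i3⟩ := exists_limit G f hf hK
  have up : ∀ n g m, n ≤ m → ∃ g', j m g' = j n g := by
    intro n g m hm
    induction m, hm using Nat.le_induction with
    | base => exact ⟨g, rfl⟩
    | succ m hm ih =>
      obtain ⟨g', hg'⟩ := ih
      exact ⟨_, (i2 m g').trans hg'⟩
  obtain ⟨a, b, hab⟩ := hne
  refine ⟨L, inferInstance, kL, ⟨j 0 a, j 0 b, fun e => hab (commute_of_inj (j 0) (i1 0) e)⟩, ?_⟩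
  rintro ⟨x, y, z⟩
  obtain ⟨n1, x, rfl⟩ := i3 x
  obtain ⟨n2, y, rfl⟩ := i3 y
  obtain ⟨n3, z, rfl⟩ := i3 z
  obtain ⟨x', hx⟩ := up n1 x (n1 + n2 + n3) (by omega)
  obtain ⟨y', hy⟩ := up n2 y (n1 + n2 + n3) (by omega)
  obtain ⟨z', hz⟩ := up n3 z (n1 + n2 + n3) (by omega)
  rw [← hx, ← hy, ← hz]
  generalize n1 + n2 + n3 = n at x' y' z'
  have h7 := (hs n (x', y', z')).comp (j (n + 1))
  have h8 : (j (n + 1)).comp (f n) = j n := MonoidHom.ext (i2 n)
  rw [h8] at h7
  exact ⟨fun a b => h7.1 (fun e => a (by simp [show x' = 1 from e]))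
    (fun e => b (by simp [show y' = 1 from e])),
    fun a b c => h7.2 (fun e => a (by simp [show x' = 1 from e]))
      (fun e => b (e.map (j n))) (fun e => c (e.map (j n)))⟩

theorem exists_noncomm : ∃ (P : Type) (_ : Group P), K P ∧ ∃ a b : P, ¬Commute a b := by
  obtain ⟨P, _, iA, iB, M, h1, h2, h3, h4, h5, h6, -, -, kP⟩ := exists_free_K K_int
  refine ⟨P, inferInstance, kP, iA (Multiplicative.ofAdd 1), iB (Multiplicative.ofAdd 1),
    fun e' => ?_⟩
  have ne : ∀ i : Multiplicative ℤ →* P, Injective i → i (Multiplicative.ofAdd 1) ∉ M.C := by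
    intro i hi
    rw [h5, Subgroup.mem_bot]
    intro e
    exact gen_sq_ne i hi (by rw [e, mul_one])
  have wa : W M 1 false true (iA (Multiplicative.ofAdd 1)) :=
    W.single (by rw [h3]; exact ⟨_, rfl⟩) (ne _ h1)
  have wb : W M 1 true false (iB (Multiplicative.ofAdd 1)) :=
    W.single (by rw [h4]; exact ⟨_, rfl⟩) (ne _ h2)
  have w1 := wa.mul wb
  rw [e'.eq] at w1
  have := W.start_unique h6 w1 (wb.mul wa)
  simp at this

/-- A bundled group in the class. -/
structure KG where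
  carrier : Type
  [inst : Group carrier]
  k : K carrier

attribute [instance] KG.inst

theorem exists_closed : ∃ (L : Type) (_ : Group L), K L ∧ (∃ a b : L, ¬Commute a b) ∧
    ∀ x, Sat (MonoidHom.id L) x := by
  have step : ∀ X : KG, ∃ (Y : KG) (f : X.carrier →* Y.carrier), Injective f ∧ ∀ x, Sat f x := by
    intro X
    obtain ⟨G', _, f, h1, h2, h3⟩ := plus_step X.k
    exact ⟨⟨G', h2⟩, f, h1, h3⟩
  choose nxt stp hinj hsat using step
  obtain ⟨P, _, kP, hP⟩ := exists_noncomm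
  let seq : ℕ → KG := fun n => Nat.rec ⟨P, kP⟩ (fun _ X => nxt X) n
  exact @closed_of_seq (fun n => (seq n).carrier) (fun n => (seq n).inst) (fun n => stp (seq n))
    (fun n => hinj _) (fun n => (seq n).k) (fun n => hsat _) hP

end Pool.Agent.Lib.MP_e97be0_al
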