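import Mathlib

/-!
Reduced words for an internal amalgamated product of two subgroups.
-/

namespace Pool.Agent.Lib.MP_e97be0_al

/-- Two subgroups `S false`, `S true` containing a common subgroup `C`. -/
structure Am (P : Type*) [Group P] where
  S : Bool → Subgroup P
  C : Subgroup P
  le : ∀ i, C ≤ S i

variable {P : Type*} [Group P]

/-- `W M n i j g`: `g` is a product of `n` letters, alternately from the two factors and outside
`C`, the first from `S i`, followed by an element of `C`; the next letter would be of type `j`. -/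
def W (M : Am P) : ℕ → Bool → Bool → P → Prop
  | 0, i, j, g => i = j ∧ g ∈ M.C
  | n + 1, i, j, g => ∃ x g', x ∈ M.S i ∧ x ∉ M.C ∧ W M n (!i) j g' ∧ g = x * g'

/-- The normal form property. -/
def NF (M : Am P) : Prop := ∀ n i j g, W M (n + 1) i j g → g ∉ M.C

/-- The subgroup generated by the two factors. -/
def Am.Gam (M : Am P) : Subgroup P := Subgroup.closure ((M.S false : Set P) ∪ M.S true)

variable {M : Am P}

theorem W_zero {i j : Bool} {g : P} : W M 0 i j g ↔ i = j ∧ g ∈ M.C := Iff.rfl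

theorem W_succ {n : ℕ} {i j : Bool} {g : P} :
    W M (n + 1) i j g ↔ ∃ x g', x ∈ M.S i ∧ x ∉ M.C ∧ W M n (!i) j g' ∧ g = x * g' := Iff.rfl

theorem W.of_mem_C {c : P} (hc : c ∈ M.C) (i : Bool) : W M 0 i i c := ⟨rfl, hc⟩

theorem W.C_mul {n : ℕ} {i j : Bool} {c g : P} (hc : c ∈ M.C) (h : W M n i j g) :
    W M n i j (c * g) := by
  cases n with
  | zero => exact ⟨h.1, M.C.mul_mem hc h.2⟩
  | succ n =>
    obtain ⟨x, g', hx, hxC, hg', rfl⟩ := h
    refine ⟨c * x, g', (M.S i).mul_mem (M.le i hc) hx, ?_, hg', by group⟩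
    intro h
    exact hxC ((M.C.mul_mem_cancel_left hc).1 h)

theorem W.mul {n m : ℕ} {i j k : Bool} {g h : P} (hg : W M n i j g) (hh : W M m j k h) :
    W M (n + m) i k (g * h) := by
  induction n generalizing i g with
  | zero =>
    obtain ⟨rfl, hc⟩ := hg
    simpa using hh.C_mul hc
  | succ n ih =>
    obtain ⟨x, g', hx, hxC, hg', rfl⟩ := hg
    rw [Nat.add_right_comm]
    exact ⟨x, g' * h, hx, hxC, ih hg', by group⟩

theorem W.single {i : Bool} {x : P} (hx : x ∈ M.S i) (hxC : x ∉ M.C) : W M 1 i (!i) x :=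
  ⟨x, 1, hx, hxC, ⟨rfl, M.C.one_mem⟩, by simp⟩

theorem W.cons {n : ℕ} {i j : Bool} {x g : P} (hx : x ∈ M.S i) (hxC : x ∉ M.C)
    (h : W M n (!i) j g) : W M (n + 1) i j (x * g) := ⟨x, g, hx, hxC, h, rfl⟩

theorem W.mul_C {n : ℕ} {i j : Bool} {c g : P} (h : W M n i j g) (hc : c ∈ M.C) :
    W M n i j (g * c) := h.mul (W.of_mem_C hc j)

theorem W.inv {n : ℕ} {i j : Bool} {g : P} (h : W M n i j g) : W M n (!j) (!i) g⁻¹ := by
  induction n generalizing i g with
  | zero =>
    obtain ⟨rfl, hc⟩ := h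
    exact ⟨rfl, M.C.inv_mem hc⟩
  | succ n ih =>
    obtain ⟨x, g', hx, hxC, hg', rfl⟩ := h
    have h1 := ih hg'
    rw [Bool.not_not] at h1
    have h2 : W M 1 i (!i) x⁻¹ := W.single ((M.S i).inv_mem hx) (by simpa using hxC)
    simpa using h1.mul h2

theorem W.snoc {n : ℕ} {i j : Bool} {g : P} (h : W M (n + 1) i j g) :
    ∃ g' x, W M n i (!j) g' ∧ x ∈ M.S (!j) ∧ x ∉ M.C ∧ g = g' * x := by
  obtain ⟨x, g', hx, hxC, hg', he⟩ := h.inv
  refine ⟨g'⁻¹, x⁻¹, ?_, (M.S _).inv_mem hx, by simpa using hxC, ?_⟩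
  · simpa using hg'.inv
  · rw [← mul_inv_rev, ← he, inv_inv]

theorem W.letter_mul {n : ℕ} {i j : Bool} {x g : P} (hx : x ∈ M.S i) (h : W M (n + 1) i j g) :
    W M (n + 1) i j (x * g) ∨ W M n (!i) j (x * g) := by
  obtain ⟨y, g', hy, hyC, hg', rfl⟩ := h
  by_cases hc : x * y ∈ M.C
  · right
    simpa [mul_assoc] using hg'.C_mul hc
  · left
    exact ⟨x * y, g', (M.S i).mul_mem hx hy, hc, hg', by group⟩

theorem W.of_mem_S {i : Bool} {x : P} (hx : x ∈ M.S i) :
    W M 0 i i x ∨ W M 1 i (!i) x := by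
  by_cases hc : x ∈ M.C
  · exact Or.inl ⟨rfl, hc⟩
  · exact Or.inr (W.single hx hc)

theorem W.S_mul {n : ℕ} {i j k : Bool} {x g : P} (hx : x ∈ M.S k) (h : W M n i j g) :
    ∃ n' i' j', W M n' i' j' (x * g) := by
  by_cases hc : x ∈ M.C
  · exact ⟨_, _, _, h.C_mul hc⟩
  cases n with
  | zero =>
    exact ⟨_, _, _, (W.single hx hc).mul_C h.2⟩
  | succ n =>
    by_cases hik : i = k
    · subst hik
      rcases h.letter_mul hx with h' | h'
      · exact ⟨_, _, _, h'⟩
      · exact ⟨_, _, _, h'⟩
    · have : i = !k := by cases i <;> cases k <;> simp_all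
      subst this
      exact ⟨_, _, _, W.cons hx hc h⟩

theorem S_le_Gam (i : Bool) : M.S i ≤ M.Gam := by
  intro x hx
  apply Subgroup.subset_closure
  cases i
  · exact Or.inl hx
  · exact Or.inr hx

theorem W.mem_Gam {n : ℕ} {i j : Bool} {g : P} (h : W M n i j g) : g ∈ M.Gam := by
  induction n generalizing i g with
  | zero => exact S_le_Gam false (M.le _ h.2)
  | succ n ih =>
    obtain ⟨x, g', hx, -, hg', rfl⟩ := h
    exact M.Gam.mul_mem (S_le_Gam i hx) (ih hg')

theorem W.total {g : P} (hg : g ∈ M.Gam) : ∃ n i j, W M n i j g := by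
  induction hg using Subgroup.closure_induction_left with
  | one => exact ⟨0, false, false, rfl, M.C.one_mem⟩
  | mul_left x hx y hy ih =>
    obtain ⟨n, i, j, h⟩ := ih
    rcases hx with hx | hx
    · exact h.S_mul hx
    · exact h.S_mul hx
  | inv_mul_cancel x hx y hy ih =>
    obtain ⟨n, i, j, h⟩ := ih
    rcases hx with hx | hx
    · exact h.S_mul ((M.S _).inv_mem hx)
    · exact h.S_mul ((M.S _).inv_mem hx)

/-- Every word is conjugate into a factor or to a cyclically reduced word. -/
theorem W.trich {n : ℕ} {i j : Bool} {g : P} (h : W M n i j g) :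
    ∃ v ∈ M.Gam, (∃ k, v⁻¹ * g * v ∈ M.S k) ∨ ∃ k m, W M (m + 1) k k (v⁻¹ * g * v) := by
  induction n using Nat.strong_induction_on generalizing i j g with
  | _ n ih =>
    rcases n with _ | n
    · exact ⟨1, M.Gam.one_mem, Or.inl ⟨false, by simpa using M.le _ h.2⟩⟩
    by_cases hij : i = j
    · subst hij
      exact ⟨1, M.Gam.one_mem, Or.inr ⟨i, n, by simpa using h⟩⟩
    have hj : j = !i := by cases i <;> cases j <;> simp_all
    subst hj
    obtain ⟨x, g', hx, hxC, hg', rfl⟩ := h
    rcases n with _ | n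
    · refine ⟨1, M.Gam.one_mem, Or.inl ⟨i, ?_⟩⟩
      simpa using (M.S i).mul_mem hx (M.le _ hg'.2)
    -- `g' * x` is the conjugate
    have h1 := hg'.inv
    rw [Bool.not_not] at h1
    have hxG : x ∈ M.Gam := S_le_Gam i hx
    have e : ∀ v : P, v⁻¹ * (x⁻¹ * g'⁻¹)⁻¹ * v = (x * v)⁻¹ * (x * g') * (x * v) := by
      intro v; group
    rcases h1.letter_mul ((M.S i).inv_mem hx) with h2 | h2
    · have h3 := h2.inv
      obtain ⟨v, hv, hv'⟩ := ih (n + 1) (by omega) h3
      refine ⟨x * v, M.Gam.mul_mem hxG hv, ?_⟩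
      rw [← e]; exact hv'
    · have h3 := h2.inv
      obtain ⟨v, hv, hv'⟩ := ih n (by omega) h3
      refine ⟨x * v, M.Gam.mul_mem hxG hv, ?_⟩
      rw [← e]; exact hv'

theorem W.parity {n : ℕ} {i j : Bool} {g : P} (h : W M n i j g) : i = j ↔ Even n := by
  induction n generalizing i g with
  | zero => simp [h.1]
  | succ n ih =>
    obtain ⟨x, g', -, -, hg', -⟩ := h
    have := ih hg'
    rw [Nat.even_add_one, ← this]
    cases i <;> cases j <;> simp

/-- A cyclically reduced word can be rotated so as to start with a prescribed type. -/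
theorem W.rotate {n : ℕ} {k : Bool} {g : P} (h : W M (n + 1) k k g) (i : Bool) :
    ∃ v ∈ M.Gam, W M (n + 1) i i (v⁻¹ * g * v) := by
  by_cases hik : k = i
  · subst hik
    exact ⟨1, M.Gam.one_mem, by simpa using h⟩
  have hj : k = !i := by cases i <;> cases k <;> simp_all
  subst hj
  obtain ⟨x, g', hx, hxC, hg', rfl⟩ := h
  refine ⟨x, S_le_Gam _ hx, ?_⟩
  have := hg'.mul (W.single hx hxC)
  simp only [Bool.not_not] at this
  convert this using 1
  group

theorem W.pow {n : ℕ} {i : Bool} {u : P} (h : W M n i i u) (N : ℕ) : W M (N * n) i i (u ^ N) := by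
  induction N with
  | zero => simpa using W.of_mem_C M.C.one_mem i
  | succ N ih =>
    rw [pow_succ, Nat.succ_mul]
    exact ih.mul h

section NF

variable (hN : NF M)
include hN

theorem W.head_unique {n m : ℕ} {i j k : Bool} {x x' g g' : P} (hx : x ∈ M.S i)
    (hx' : x' ∈ M.S i) (hg : W M n (!i) j g) (hg' : W M m (!i) k g') (e : x * g = x' * g') :
    x⁻¹ * x' ∈ M.C := by
  by_contra hc
  have h1 := hg.inv
  rw [Bool.not_not] at h1
  have h2 := h1.mul (W.cons ((M.S i).mul_mem ((M.S i).inv_mem hx) hx') hc hg')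
  have e2 : g⁻¹ * (x⁻¹ * x' * g') = 1 := by
    rw [mul_assoc x⁻¹, ← e]; group
  rw [e2, ← Nat.add_assoc] at h2
  exact hN _ _ _ _ h2 M.C.one_mem

theorem W.start_unique {n m : ℕ} {i i' j k : Bool} {g : P} (h : W M (n + 1) i j g)
    (h' : W M (m + 1) i' k g) : i = i' := by
  by_contra hne
  have hi : i' = !i := by cases i <;> cases i' <;> simp_all
  subst hi
  have h2 := h.inv.mul h'
  rw [inv_mul_cancel, ← Nat.add_assoc] at h2
  exact hN _ _ _ _ h2 M.C.one_mem

theorem W.len_unique {n m : ℕ} {i i' j k : Bool} {g : P} (h : W M n i j g)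
    (h' : W M m i' k g) : n = m := by
  induction n generalizing m i i' g with
  | zero =>
    cases m with
    | zero => rfl
    | succ m => exact absurd h.2 (hN _ _ _ _ h')
  | succ n ih =>
    cases m with
    | zero => exact absurd h'.2 (hN _ _ _ _ h)
    | succ m =>
      have hi := W.start_unique hN h h'
      subst hi
      obtain ⟨x, g1, hx, hxC, hg1, rfl⟩ := h
      obtain ⟨x', g2, hx', hxC', hg2, e⟩ := h'
      have hc := W.head_unique hN hx hx' hg1 hg2 e
      have : g1 = x⁻¹ * x' * g2 := by rw [mul_assoc, ← e]; group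
      have h3 := hg2.C_mul hc
      rw [← this] at h3
      rw [ih hg1 h3]

theorem W.end_unique {n m : ℕ} {i i' j k : Bool} {g : P} (h : W M (n + 1) i j g)
    (h' : W M (m + 1) i' k g) : j = k := by
  have := W.start_unique hN h.inv h'.inv
  simpa using this

/-- Equidivisibility. -/
theorem W.levi {n d m m' : ℕ} {i j j' k k' : Bool} {u v u' v' : P} (hu : W M n i j u)
    (hv : W M m j k v) (hu' : W M (n + d) i j' u') (hv' : W M m' j' k' v')
    (e : u * v = u' * v') : W M d j j' (u⁻¹ * u') := by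
  induction n generalizing i u u' with
  | zero =>
    obtain ⟨rfl, hc⟩ := hu
    rw [Nat.zero_add] at hu'
    exact hu'.C_mul (M.C.inv_mem hc)
  | succ n ih =>
    rw [Nat.add_right_comm] at hu'
    obtain ⟨x, g1, hx, hxC, hg1, rfl⟩ := hu
    obtain ⟨x', g2, hx', hxC', hg2, rfl⟩ := hu'
    have hc := W.head_unique hN hx hx' (hg1.mul hv) (hg2.mul hv') (by simpa [mul_assoc] using e)
    have h3 := hg2.C_mul hc
    have := ih hg1 h3 (by
      have : g1 * v = x⁻¹ * (x * g1 * v) := by group
      rw [this, e]; group)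
    convert this using 1
    group

/-- Equidivisibility for two initial pieces of the same length. -/
theorem W.levi_eq {n m m' : ℕ} {i j j' k k' : Bool} {u v u' v' : P} (hu : W M n i j u)
    (hv : W M m j k v) (hu' : W M n i j' u') (hv' : W M m' j' k' v')
    (e : u * v = u' * v') : u⁻¹ * u' ∈ M.C :=
  (W.levi hN (d := 0) hu hv hu' hv' e).2

theorem W.ne_one {n : ℕ} {i j : Bool} {g : P} (h : W M (n + 1) i j g) : g ≠ 1 := by
  rintro rfl
  exact hN _ _ _ _ h M.C.one_mem

theorem W.len_le_one {n : ℕ} {i j k : Bool} {g : P} (h : W M n i j g) (hg : g ∈ M.S k) :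
    n ≤ 1 := by
  rcases W.of_mem_S hg with h' | h'
  · have := W.len_unique hN h h'; omega
  · have := W.len_unique hN h h'; omega

theorem W.not_mem_S {n : ℕ} {i j : Bool} {g : P} (h : W M (n + 1) i j g) : g ∉ M.S (!i) := by
  intro hg
  rcases W.of_mem_S hg with h' | h'
  · exact hN _ _ _ _ h h'.2
  · have := W.start_unique hN h h'
    cases i <;> simp at this

theorem W.cyc_not_mem_S {n : ℕ} {i k : Bool} {g : P} (h : W M (n + 1) i i g) : g ∉ M.S k := by
  intro hg
  have h1 := W.len_le_one hN h hg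
  have h2 := h.parity.1 rfl
  have : n = 0 := by omega
  subst this
  simp at h2

theorem mem_C_of_mem_S {g : P} (h0 : g ∈ M.S false) (h1 : g ∈ M.S true) : g ∈ M.C := by
  by_contra hc
  exact W.not_mem_S hN (W.single h0 hc) h1

/-- If a word `w` that can follow `u` conjugates the cyclically reduced `u` to the cyclically
reduced `u'`, then it can precede `u'`. -/
theorem W.forward {n n' m : ℕ} {i i' j : Bool} {u u' w : P} (hu : W M (n + 1) i i u)
    (hu' : W M (n' + 1) i' i' u') (hw : W M m i j w) (e : u * w = w * u') : W M m i i' w := by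
  by_cases hj : j = i'
  · subst hj; exact hw
  have hj' : j = !i' := by cases i' <;> cases j <;> simp_all
  subst hj'
  have h1 := (hu.mul hw).mul hu'.inv
  rw [e, mul_inv_cancel_right] at h1
  have := W.len_unique hN h1 hw
  omega

theorem W.forward_or {n n' : ℕ} {i i' : Bool} {u u' w : P} (hu : W M (n + 1) i i u)
    (hu' : W M (n' + 1) i' i' u') (hw : w ∈ M.Gam) (e : u * w = w * u') :
    (∃ m, W M m i i' w) ∨ ∃ m, W M m i' i w⁻¹ := by
  obtain ⟨m, a, j, h⟩ := W.total hw
  by_cases ha : a = i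
  · subst ha
    exact Or.inl ⟨m, W.forward hN hu hu' h e⟩
  have ha' : a = !i := by cases i <;> cases a <;> simp_all
  subst ha'
  have e' : u⁻¹ * w = w * u'⁻¹ := by
    rw [inv_mul_eq_iff_eq_mul, ← mul_assoc, e]; group
  have := (W.forward hN hu.inv hu'.inv h e').inv
  simp only [Bool.not_not] at this
  exact Or.inr ⟨m, this⟩

/-- A cyclically reduced word is not conjugate into a factor. -/
theorem W.cyc_not_conj {n : ℕ} {i k : Bool} {u w : P} (hu : W M (n + 1) i i u) (hw : w ∈ M.Gam) :
    w⁻¹ * u * w ∉ M.S k := by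
  intro hmem
  obtain ⟨m, a, j, h⟩ := W.total hw
  have key : ∀ {i : Bool} {u : P}, W M (n + 1) i i u → w⁻¹ * u * w ∈ M.S k →
      W M m i j w → False := by
    intro i u hu hmem h
    have h1 := hu.mul h
    have e : u * w = w * (w⁻¹ * u * w) := by group
    rw [e] at h1
    have hn : 1 ≤ n := by
      have := hu.parity.1 rfl
      rcases n with _ | n
      · simp at this
      · omega
    -- the length of `w * s` is at most `m + 1`
    have h2 := h.inv
    have h3 := h1.inv
    rw [mul_inv_rev] at h3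
    have hs := (M.S k).inv_mem hmem
    generalize (w⁻¹ * u * w)⁻¹ = s at hs h3
    by_cases hc : s ∈ M.C
    · have := W.len_unique hN h3 (h2.C_mul hc); omega
    rcases m with _ | m
    · have := W.len_unique hN h3 ((W.single hs hc).mul_C h2.2); omega
    by_cases hk : k = !j
    · subst hk
      rcases h2.letter_mul hs with h4 | h4
      · have := W.len_unique hN h3 h4; omega
      · have := W.len_unique hN h3 h4; omega
    · have : k = j := by cases k <;> cases j <;> simp_all
      subst this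
      have := W.len_unique hN h3 (W.cons hs hc h2); omega
  by_cases ha : a = i
  · subst ha; exact key hu hmem h
  have ha' : a = !i := by cases i <;> cases a <;> simp_all
  subst ha'
  refine key hu.inv ?_ h
  have := (M.S k).inv_mem hmem
  convert this using 1
  group

end NF

end Pool.Agent.Lib.MP_e97be0_al
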